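import Pool.Agent.Y423.LA.Half

set_option autoImplicit false

/-!
Unions of graphs of degree two with long cycles, and their products.
-/

namespace Pool.Agent.Y423.LA

open SimpleGraph Pool.Agent.W111.LAR Finset

/-- The union of `n` graphs all of whose components are cycles of length at least `L`. -/
def Long {V : Type} (G : SimpleGraph V) (n L : ℕ) : Prop :=
  ∃ (κ : Type) (_ : Fintype κ) (H : κ → SimpleGraph V), Fintype.card κ = n ∧
    (∀ i v, ((H i).neighborSet v).ncard = 2) ∧ (∀ i v, L ≤ csize (H i) v) ∧ (⨆ i, H i) = G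

theorem Long.mono {V : Type} {G : SimpleGraph V} {n L L' : ℕ} (h : Long G n L) (hL : L' ≤ L) :
    Long G n L' := by
  obtain ⟨κ, i, H, h1, h2, h3, h4⟩ := h
  exact ⟨κ, i, H, h1, h2, fun i v => hL.trans (h3 i v), h4⟩

theorem Long.iSup {V κ : Type} [Fintype κ] {G : κ → SimpleGraph V} {n : κ → ℕ} {L : ℕ}
    (h : ∀ k, Long (G k) (n k) L) : Long (⨆ k, G k) (∑ k, n k) L := by
  choose K iK H h1 h2 h3 h4 using h
  refine ⟨Σ k, K k, inferInstance, fun x => H x.1 x.2, ?_, fun i v => h2 _ _ v,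
    fun i v => h3 _ _ v, ?_⟩
  · rw [Fintype.card_sigma]
    exact sum_congr rfl fun k _ => h1 k
  · rw [iSup_sigma]
    exact iSup_congr fun k => h4 k

theorem Long.comap {V W : Type} (e : V ≃ W) {G : SimpleGraph W} {n L : ℕ} (h : Long G n L) :
    Long (G.comap e) n L := by
  obtain ⟨κ, i, H, h1, h2, h3, h4⟩ := h
  refine ⟨κ, i, fun i => (H i).comap e, h1, fun i v => ?_, fun i v => ?_, ?_⟩
  · rw [deg_comap]; exact h2 i _
  · rw [size_comap]; exact h3 i _
  · rw [← h4]
    ext u v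
    simp [iSup_adj]

theorem long_bot {V : Type} (L : ℕ) : Long (⊥ : SimpleGraph V) 0 L :=
  ⟨Empty, inferInstance, fun i => i.elim, rfl, fun i => i.elim, fun i => i.elim, iSup_of_empty _⟩

theorem Long.fin {V : Type} {G : SimpleGraph V} {n L : ℕ} (h : Long G n L) :
    ∃ H : Fin n → SimpleGraph V, (∀ i v, ((H i).neighborSet v).ncard = 2) ∧
      (∀ i v, L ≤ csize (H i) v) ∧ (⨆ i, H i) = G := by
  obtain ⟨κ, i, H, h1, h2, h3, h4⟩ := h
  let e := Fintype.equivFinOfCardEq h1
  refine ⟨fun k => H (e.symm k), fun k v => h2 _ _, fun k v => h3 _ _, ?_⟩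
  rw [← h4]
  exact e.symm.iSup_congr fun _ => rfl

theorem long_one {V : Type} {H : SimpleGraph V} {L : ℕ} (h1 : ∀ v, (H.neighborSet v).ncard = 2)
    (h2 : ∀ v, L ≤ csize H v) : Long H 1 L :=
  ⟨Unit, inferInstance, fun _ => H, rfl, fun _ => h1, fun _ => h2, by rw [ciSup_const]⟩

theorem long_two {V : Type} {P Q : SimpleGraph V} {L : ℕ} (h1 : ∀ v, (P.neighborSet v).ncard = 2)
    (h2 : ∀ v, (Q.neighborSet v).ncard = 2) (h3 : ∀ v, L ≤ csize P v) (h4 : ∀ v, L ≤ csize Q v) :
    Long (P ⊔ Q) 2 L := by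
  refine ⟨Bool, inferInstance, fun b => cond b P Q, rfl, ?_, ?_, ?_⟩
  · rintro (_ | _)
    · exact h2
    · exact h1
  · rintro (_ | _)
    · exact h4
    · exact h3
  · rw [iSup_bool_eq]
    rfl

theorem long_kotzig {X Y : Type} [Finite X] [Finite Y] {A : SimpleGraph X} {B : SimpleGraph Y}
    {L L' : ℕ} (hA : ∀ x, (A.neighborSet x).ncard = 2) (hB : ∀ y, (B.neighborSet y).ncard = 2)
    (hL : ∀ x, L ≤ csize A x) (hL' : ∀ y, L' ≤ csize B y) : Long (A.boxProd B) 2 (L * L') := by
  obtain ⟨P, Q, h, h1, h2, h3, h4⟩ := kotzig A B hA hB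
  rw [← h]
  exact long_two h1 h2 (fun x => (Nat.mul_le_mul (hL _) (hL' _)).trans (h3 x))
    (fun x => (Nat.mul_le_mul (hL _) (hL' _)).trans (h4 x))

theorem long_boxBot {X Y : Type} [Finite X] [Finite Y] {A : SimpleGraph X} {L : ℕ}
    (hA : ∀ x, (A.neighborSet x).ncard = 2) (hL : ∀ x, L ≤ csize A x) :
    Long (A.boxProd (⊥ : SimpleGraph Y)) 1 L := by
  refine long_one ?_ ?_
  · rintro ⟨x, y⟩
    have : (A.boxProd (⊥ : SimpleGraph Y)).neighborSet (x, y) =
        (fun u => (u, y)) '' A.neighborSet x := by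
      ext ⟨u, w⟩
      simp only [mem_neighborSet, boxProd_adj, bot_adj, false_and, or_false, Set.mem_image,
        Prod.mk.injEq]
      constructor
      · rintro ⟨h1, rfl⟩
        exact ⟨u, h1, rfl, rfl⟩
      · rintro ⟨v, h1, rfl, rfl⟩
        exact ⟨h1, rfl⟩
    rw [this, Set.ncard_image_of_injective _ (fun a b h => (Prod.ext_iff.1 h).1)]
    exact hA x
  · rintro ⟨x, y⟩
    refine (hL x).trans ?_
    unfold csize
    rw [← Set.ncard_image_of_injective (f := fun u : X => (u, y)) _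
      (fun a b h => (Prod.ext_iff.1 h).1)]
    refine Set.ncard_le_ncard ?_ (Set.toFinite _)
    rintro _ ⟨u, hu, rfl⟩
    exact Reachable.map (boxProdLeft A (⊥ : SimpleGraph Y) y).toHom hu

/-- Products. -/
theorem Long.box {X Y : Type} [Finite X] [Finite Y] {G : SimpleGraph X} {H : SimpleGraph Y}
    {m m' L L' M : ℕ} (hG : Long G m L) (hH : Long H m' L') (hm : m' ≤ m)
    (hM1 : M ≤ L * L') (hM2 : m' < m → M ≤ L) : Long (G.boxProd H) (m + m') M := by
  classical
  obtain ⟨A, a1, a2, rfl⟩ := hG.fin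
  obtain ⟨B, b1, b2, rfl⟩ := hH.fin
  let B' : Fin m → SimpleGraph Y := fun k => if h : k.1 < m' then B ⟨k.1, h⟩ else ⊥
  have h1 : ∀ k, Long ((A k).boxProd (B' k)) (if k.1 < m' then 2 else 1) M := by
    intro k
    by_cases h : k.1 < m'
    · have e : B' k = B ⟨k.1, h⟩ := dif_pos h
      rw [e, if_pos h]
      exact (long_kotzig (a1 k) (b1 _) (a2 k) (b2 _)).mono hM1
    · have e : B' k = ⊥ := dif_neg h
      rw [e, if_neg h]
      exact (long_boxBot (a1 k) (a2 k)).mono (hM2 (by omega))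
  have h2 := Long.iSup h1
  have h3 : (∑ k : Fin m, (if k.1 < m' then 2 else 1)) = m + m' := by
    have h4 : ∀ k : Fin m, (if k.1 < m' then 2 else 1) = 1 + (if k.1 < m' then 1 else 0) := by
      intro k
      split_ifs <;> rfl
    rw [sum_congr rfl (fun k _ => h4 k), sum_add_distrib, sum_const, card_univ, Fintype.card_fin,
      smul_eq_mul, mul_one, sum_boole]
    congr 1
    rw [Nat.cast_id]
    have h5 : (univ.filter (fun k : Fin m => k.1 < m')) = univ.map (Fin.castLEEmb hm) := by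
      ext k
      simp only [mem_filter, mem_univ, true_and, mem_map, Fin.castLEEmb_apply]
      constructor
      · intro h
        exact ⟨⟨k.1, h⟩, rfl⟩
      · rintro ⟨j, rfl⟩
        exact j.2
    rw [h5, card_map, card_univ, Fintype.card_fin]
  rw [h3] at h2
  have h6 : (⨆ k, (A k).boxProd (B' k)) = (⨆ k, A k).boxProd (⨆ k, B k) := by
    ext ⟨x, y⟩ ⟨x', y'⟩
    simp only [iSup_adj, boxProd_adj]
    constructor
    · rintro ⟨k, (⟨h, h'⟩ | ⟨h, h'⟩)⟩
      · exact Or.inl ⟨⟨k, h⟩, h'⟩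
      · right
        refine ⟨?_, h'⟩
        by_cases hk : k.1 < m'
        · have e : B' k = B ⟨k.1, hk⟩ := dif_pos hk
          rw [e] at h
          exact ⟨_, h⟩
        · have e : B' k = ⊥ := dif_neg hk
          rw [e] at h
          exact h.elim
    · rintro (⟨⟨k, h⟩, h'⟩ | ⟨⟨k, h⟩, h'⟩)
      · exact ⟨k, Or.inl ⟨h, h'⟩⟩
      · refine ⟨Fin.castLE hm k, Or.inr ⟨?_, h'⟩⟩
        have e : B' (Fin.castLE hm k) = B k := dif_pos (show (Fin.castLE hm k).1 < m' from k.2)
        rw [e]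
        exact h
  rwa [h6] at h2

/-- The Cartesian product of a family of graphs. -/
def piG {ι : Type} {V : ι → Type} (G : ∀ i, SimpleGraph (V i)) : SimpleGraph (∀ i, V i) where
  Adj x y := ∃ i, (G i).Adj (x i) (y i) ∧ ∀ j, j ≠ i → x j = y j
  symm.symm := by
    rintro x y ⟨i, h1, h2⟩
    exact ⟨i, h1.symm, fun j hj => (h2 j hj).symm⟩
  loopless.irrefl := by
    rintro x ⟨i, h1, _⟩
    exact h1.ne rfl

theorem piG_adj {ι : Type} {V : ι → Type} (G : ∀ i, SimpleGraph (V i)) (x y : ∀ i, V i) :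
    (piG G).Adj x y ↔ ∃ i, (G i).Adj (x i) (y i) ∧ ∀ j, j ≠ i → x j = y j := Iff.rfl

/-- Splitting the index set. -/
theorem piG_split {ι : Type} {V : ι → Type} (G : ∀ i, SimpleGraph (V i)) (p : ι → Prop)
    [DecidablePred p] :
    piG G = ((piG fun i : {i // p i} => G i.1).boxProd (piG fun i : {i // ¬ p i} => G i.1)).comap
      (Equiv.piEquivPiSubtypeProd p V) := by
  ext x y
  rw [comap_adj, boxProd_adj, piG_adj, piG_adj, piG_adj]
  simp only [Equiv.piEquivPiSubtypeProd_apply]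
  constructor
  · rintro ⟨i, h1, h2⟩
    by_cases hi : p i
    · refine Or.inl ⟨⟨⟨i, hi⟩, h1, fun j hj => h2 _ (fun h => hj (Subtype.ext h))⟩, ?_⟩
      funext j
      exact h2 _ (fun h => j.2 (h ▸ hi))
    · refine Or.inr ⟨⟨⟨i, hi⟩, h1, fun j hj => h2 _ (fun h => hj (Subtype.ext h))⟩, ?_⟩
      funext j
      exact h2 _ (fun h => hi (h ▸ j.2))
  · rintro (⟨⟨i, h1, h2⟩, h3⟩ | ⟨⟨i, h1, h2⟩, h3⟩)
    · refine ⟨i.1, h1, fun j hj => ?_⟩
      by_cases hp : p j
      · exact h2 ⟨j, hp⟩ (fun h => hj (congrArg Subtype.val h))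
      · exact congrFun h3 ⟨j, hp⟩
    · refine ⟨i.1, h1, fun j hj => ?_⟩
      by_cases hp : p j
      · exact congrFun h3 ⟨j, hp⟩
      · exact h2 ⟨j, hp⟩ (fun h => hj (congrArg Subtype.val h))

theorem piG_bot {ι : Type} {V : ι → Type} (G : ∀ i, SimpleGraph (V i)) (h : ∀ i, G i = ⊥) :
    piG G = ⊥ := by
  ext x y
  rw [piG_adj]
  constructor
  · rintro ⟨i, h1, _⟩
    rw [h i] at h1
    exact h1.elim
  · intro h
    exact h.elim

theorem piG_iSup {ι κ : Type} {V : ι → Type} (G : κ → ∀ i, SimpleGraph (V i)) :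
    (⨆ k, piG (G k)) = piG (fun i => ⨆ k, G k i) := by
  ext x y
  simp only [iSup_adj, piG_adj]
  constructor
  · rintro ⟨k, i, h1, h2⟩
    exact ⟨i, ⟨k, h1⟩, h2⟩
  · rintro ⟨i, ⟨k, h1⟩, h2⟩
    exact ⟨k, i, h1, h2⟩

/-- A single factor. -/
theorem long_single {ι : Type} [Finite ι] {V : ι → Type} [∀ i, Finite (V i)]
    (G : ∀ i, SimpleGraph (V i)) (i₀ : ι) (L : ℕ) (h0 : ∀ i, i ≠ i₀ → G i = ⊥)
    (h1 : ∀ v, ((G i₀).neighborSet v).ncard = 2) (h2 : ∀ v, L ≤ csize (G i₀) v) :
    Long (piG G) 1 L := by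
  classical
  have hadj : ∀ x u, (G i₀).Adj (x i₀) u → (piG G).Adj x (Function.update x i₀ u) := by
    intro x u hu
    refine ⟨i₀, ?_, fun j hj => ?_⟩
    · rw [Function.update_self]; exact hu
    · rw [Function.update_of_ne hj]
  refine long_one ?_ ?_
  · intro x
    have : (piG G).neighborSet x = (fun u => Function.update x i₀ u) ''
        (G i₀).neighborSet (x i₀) := by
      ext y
      constructor
      · rintro ⟨i, h3, h4⟩
        by_cases hi : i = i₀
        · subst hi
          refine ⟨y i, h3, ?_⟩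
          funext j
          by_cases hj : j = i
          · subst hj; simp
          · show Function.update x i (y i) j = y j
            rw [Function.update_of_ne hj, h4 j hj]
        · rw [h0 i hi] at h3
          exact h3.elim
      · rintro ⟨u, hu, rfl⟩
        exact hadj x u hu
    rw [this, Set.ncard_image_of_injective _ (Function.update_injective x i₀)]
    exact h1 _
  · intro x
    refine (h2 (x i₀)).trans ?_
    unfold csize
    rw [← Set.ncard_image_of_injective (f := fun u => Function.update x i₀ u) _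
      (Function.update_injective x i₀)]
    refine Set.ncard_le_ncard ?_ (Set.toFinite _)
    rintro _ ⟨u, hu, rfl⟩
    have key : (piG G).Reachable (Function.update x i₀ (x i₀)) (Function.update x i₀ u) := by
      refine H931R3.LA.reach_induct hu (R := fun w => (piG G).Reachable
        (Function.update x i₀ (x i₀)) (Function.update x i₀ w)) (Reachable.refl _) ?_
      intro a b ha hab
      refine ha.trans (Adj.reachable ?_)
      have h3 := hadj (Function.update x i₀ a) b (by rw [Function.update_self]; exact hab)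
      rwa [Function.update_idem] at h3
    rw [Function.update_eq_self] at key
    exact key

/-- Exactly `2 ^ j` nonempty factors. -/
theorem long_pow (g : ℕ) : ∀ (j : ℕ) (ι : Type) [Finite ι] (V : ι → Type)
    [∀ i, Finite (V i)] (G : ∀ i, SimpleGraph (V i)) (S : Finset ι), S.card = 2 ^ j →
    (∀ i, i ∉ S → G i = ⊥) → (∀ i ∈ S, ∀ v, ((G i).neighborSet v).ncard = 2) →
    (∀ i ∈ S, ∀ v, g ≤ csize (G i) v) → Long (piG G) (2 ^ j) (g ^ 2 ^ j) := by
  classical
  intro j
  induction j with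
  | zero =>
    intro ι _ V _ G S hS h0 h1 h2
    rw [pow_zero] at hS
    obtain ⟨i₀, rfl⟩ := card_eq_one.1 hS
    rw [pow_zero, pow_one]
    exact long_single G i₀ g (fun i hi => h0 i (by simpa using hi)) (h1 i₀ (by simp))
      (h2 i₀ (by simp))
  | succ j ih =>
    intro ι _ V _ G S hS h0 h1 h2
    obtain ⟨S1, hS1, hc1⟩ := exists_subset_card_eq (s := S) (n := 2 ^ j) (by
      rw [hS, pow_succ]; omega)
    have hc2 : (S \ S1).card = 2 ^ j := by
      rw [card_sdiff_of_subset hS1, hS, hc1, pow_succ]; omega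
    rw [piG_split G (fun i => i ∈ S1)]
    have k1 := ih {i // i ∈ S1} (fun i => V i.1) (fun i => G i.1) univ (by
      rw [card_univ, Fintype.card_coe, hc1]) (fun i hi => absurd (mem_univ i) hi)
      (fun i _ => h1 i.1 (hS1 i.2)) (fun i _ => h2 i.1 (hS1 i.2))
    have k2 := ih {i // ¬ i ∈ S1} (fun i => V i.1) (fun i => G i.1)
      ((S \ S1).subtype (fun i => ¬ i ∈ S1)) (by
        rw [card_subtype, filter_true_of_mem (fun i hi => (mem_sdiff.1 hi).2), hc2])
      (fun i hi => h0 i.1 (fun h => hi (by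
        rw [mem_subtype, mem_sdiff]; exact ⟨h, i.2⟩)))
      (fun i hi => h1 i.1 (by rw [mem_subtype, mem_sdiff] at hi; exact hi.1))
      (fun i hi => h2 i.1 (by rw [mem_subtype, mem_sdiff] at hi; exact hi.1))
    have k3 := k1.box k2 le_rfl (M := g ^ 2 ^ (j + 1)) (by
      rw [← pow_add, pow_succ, mul_two]) (fun h => absurd h (lt_irrefl _))
    rw [show 2 ^ (j + 1) = 2 ^ j + 2 ^ j by rw [pow_succ, mul_two]] at k3 ⊢
    exact k3.comap _

/-- Any number of nonempty factors. -/
theorem long_pi (g : ℕ) (hg : 1 ≤ g) (j : ℕ) (ι : Type) [Finite ι] (V : ι → Type)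
    [∀ i, Finite (V i)] (G : ∀ i, SimpleGraph (V i)) (S : Finset ι) (hS : 2 ^ j ≤ S.card)
    (h0 : ∀ i, i ∉ S → G i = ⊥) (h1 : ∀ i ∈ S, ∀ v, ((G i).neighborSet v).ncard = 2)
    (h2 : ∀ i ∈ S, ∀ v, g ≤ csize (G i) v) : Long (piG G) S.card (g ^ 2 ^ j) := by
  classical
  have hpos : S.card ≠ 0 := fun h => by
    rw [h] at hS
    have := Nat.two_pow_pos j
    omega
  set j' := Nat.log 2 S.card with hj'
  have e1 : 2 ^ j' ≤ S.card := Nat.pow_log_le_self 2 hpos
  have e2 : S.card < 2 ^ (j' + 1) := Nat.lt_pow_succ_log_self (by norm_num) _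
  have e3 : j ≤ j' := (Nat.le_log_iff_pow_le (by norm_num) hpos).2 hS
  obtain ⟨S1, hS1, hc1⟩ := exists_subset_card_eq (s := S) (n := 2 ^ j') e1
  have hc2 : (S \ S1).card = S.card - 2 ^ j' := by
    rw [card_sdiff_of_subset hS1, hc1]
  have hgj : g ^ 2 ^ j ≤ g ^ 2 ^ j' := Nat.pow_le_pow_right hg (Nat.pow_le_pow_right (by norm_num) e3)
  rw [piG_split G (fun i => i ∈ S1)]
  have k1 := long_pow g j' {i // i ∈ S1} (fun i => V i.1) (fun i => G i.1) univ (by
    rw [card_univ, Fintype.card_coe, hc1]) (fun i hi => absurd (mem_univ i) hi)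
    (fun i _ => h1 i.1 (hS1 i.2)) (fun i _ => h2 i.1 (hS1 i.2))
  have k2 : Long (piG fun i : {i // ¬ i ∈ S1} => G i.1) (S.card - 2 ^ j') 1 := by
    -- a union of single factors
    have hsum : (piG fun i : {i // ¬ i ∈ S1} => G i.1) =
        ⨆ k : {k // k ∈ S \ S1}, piG (fun i : {i // ¬ i ∈ S1} => if i.1 = k.1 then G i.1 else ⊥) := by
      rw [piG_iSup]
      congr 1
      funext i
      ext x y
      rw [iSup_adj]
      constructor
      · intro h
        have hi : i.1 ∈ S := by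
          by_contra hn
          rw [h0 i.1 hn] at h
          exact h.elim
        refine ⟨⟨i.1, mem_sdiff.2 ⟨hi, i.2⟩⟩, ?_⟩
        rw [if_pos rfl]
        exact h
      · rintro ⟨k, hk⟩
        by_cases h : i.1 = k.1
        · rw [if_pos h] at hk
          exact hk
        · rw [if_neg h] at hk
          exact hk.elim
    rw [hsum]
    have k3 : ∀ k : {k // k ∈ S \ S1}, Long
        (piG (fun i : {i // ¬ i ∈ S1} => if i.1 = k.1 then G i.1 else ⊥)) 1 1 := by
      intro k
      have hk := mem_sdiff.1 k.2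
      refine long_single _ ⟨k.1, hk.2⟩ 1 ?_ ?_ ?_
      · intro i hi
        exact if_neg (fun h => hi (Subtype.ext h))
      · intro v
        have e : (if (k.1 : ι) = k.1 then G k.1 else ⊥) = G k.1 := if_pos rfl
        show (((if (k.1 : ι) = k.1 then G k.1 else ⊥) : SimpleGraph (V k.1)).neighborSet v).ncard = 2
        rw [e]
        exact h1 k.1 hk.1 v
      · intro v
        exact csize_pos _ _
    have k4 := Long.iSup k3
    rw [sum_const, card_univ, Fintype.card_coe, hc2, smul_eq_mul, mul_one] at k4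
    exact k4
  have k5 := k1.box k2 (by rw [pow_succ] at e2; omega) (M := g ^ 2 ^ j) (by
    rw [mul_one]; exact hgj) (fun _ => hgj)
  rw [show 2 ^ j' + (S.card - 2 ^ j') = S.card by omega] at k5
  exact k5.comap _

end Pool.Agent.Y423.LA
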