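import Pool.Agent.Y423.LA.Pm2

set_option autoImplicit false

/-!
Balanced Cartesian products of odd degree.
-/

namespace Pool.Agent.Y423.LA

open SimpleGraph Pool.Agent.W111.LAR Finset H931R3.LA

theorem exists_block {ι : Type} (r : ι → ℕ) (R : ℕ) (hR1 : 1 ≤ R) (hR : ∀ i, r i ≤ R)
    (s : Finset ι) (h : 6 * R ≤ ∑ i ∈ s, r i) :
    ∃ B ⊆ s, 6 ≤ B.card ∧ R ≤ ∑ i ∈ B, r i ∧ ∑ i ∈ B, r i ≤ 6 * R := by
  classical
  have hcard : ∀ B : Finset ι, ∑ i ∈ B, r i ≤ B.card * R := fun B => by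
    have := sum_le_card_nsmul B r R (fun i _ => hR i)
    rwa [smul_eq_mul] at this
  have hs : s ∈ s.powerset.filter (fun B => 6 ≤ B.card ∧ R ≤ ∑ i ∈ B, r i) := by
    refine mem_filter.2 ⟨mem_powerset.2 (Subset.refl s), ?_, by omega⟩
    exact Nat.le_of_mul_le_mul_right (h.trans (hcard s)) hR1
  obtain ⟨B, hB, hmin⟩ := exists_min_image _ (fun B : Finset ι => B.card) ⟨s, hs⟩
  obtain ⟨hBs, hB6, hBR⟩ := mem_filter.1 hB
  refine ⟨B, mem_powerset.1 hBs, hB6, hBR, ?_⟩
  by_contra hcon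
  have h7 : 7 ≤ B.card := by
    by_contra h7
    have h8 : B.card ≤ 6 := by omega
    have h9 := hcard B
    have h10 : B.card * R ≤ 6 * R := Nat.mul_le_mul_right R h8
    omega
  obtain ⟨e, he⟩ : B.Nonempty := card_pos.1 (by omega)
  have h8 := add_sum_erase B r he
  have h9 := hR e
  have h10 : (B.erase e).card = B.card - 1 := card_erase_of_mem he
  have h11 := hmin (B.erase e) (mem_filter.2 ⟨mem_powerset.2 ((erase_subset _ _).trans
    (mem_powerset.1 hBs)), by omega, by omega⟩)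
  omega

theorem pow_ge (n : ℕ) (hn : 6 ≤ n) : 8 * n ≤ 2 ^ n := by
  induction n, hn using Nat.le_induction with
  | base => norm_num
  | succ n hn ih => rw [pow_succ]; omega

theorem prod_ge {ι : Type} (r : ι → ℕ) (B : Finset ι) (h1 : ∀ i ∈ B, 1 ≤ r i)
    (h6 : 6 ≤ B.card) : 8 * ∑ i ∈ B, r i ≤ ∏ i ∈ B, (r i + 1) := by
  classical
  have key : ∀ B : Finset ι, 2 ^ B.card * (∑ i ∈ B, (r i - 1) + 2) ≤
      2 * ∏ i ∈ B, ((r i - 1) + 2) := by
    intro B
    induction B using Finset.induction_on with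
    | empty => simp
    | insert a s ha ih =>
      rw [card_insert_of_notMem ha, sum_insert ha, prod_insert ha]
      set T := ∑ i ∈ s, (r i - 1)
      set t := r a - 1
      set P := ∏ i ∈ s, ((r i - 1) + 2)
      have e1 : 2 ^ (s.card + 1) * (t + T + 2) ≤ 2 ^ s.card * ((t + 2) * (T + 2)) := by
        rw [pow_succ, mul_assoc]
        refine Nat.mul_le_mul_left _ ?_
        nlinarith [Nat.zero_le (t * T)]
      have e2 : 2 ^ s.card * ((t + 2) * (T + 2)) = (t + 2) * (2 ^ s.card * (T + 2)) := by ring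
      have e3 : (t + 2) * (2 ^ s.card * (T + 2)) ≤ (t + 2) * (2 * P) := Nat.mul_le_mul_left _ ih
      calc 2 ^ (s.card + 1) * (t + T + 2) ≤ (t + 2) * (2 * P) := by
            rw [e2] at e1; exact e1.trans e3
        _ = 2 * ((t + 2) * P) := by ring
  have h2 := key B
  have e1 : ∏ i ∈ B, ((r i - 1) + 2) = ∏ i ∈ B, (r i + 1) :=
    prod_congr rfl fun i hi => by have := h1 i hi; omega
  have e2 : ∑ i ∈ B, r i = ∑ i ∈ B, (r i - 1) + B.card := by
    rw [card_eq_sum_ones, ← sum_add_distrib]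
    exact sum_congr rfl fun i hi => by have := h1 i hi; omega
  rw [e1] at h2
  rw [e2]
  set T := ∑ i ∈ B, (r i - 1)
  have h3 := pow_ge B.card h6
  have h4 : 48 ≤ 2 ^ B.card := le_trans (by omega) h3
  nlinarith

/-- The selection of a block of odd degree. -/
theorem exists_odd_block {ι : Type} [Fintype ι] (r : ι → ℕ) (R : ℕ) (hR1 : 1 ≤ R)
    (hR : ∀ i, r i ≤ R) (hodd : Odd (∑ i, r i)) (hD : 12 * R ≤ ∑ i, r i) :
    ∃ B1 B2 : Finset ι, Disjoint B1 B2 ∧ B1.Nonempty ∧ Odd (∑ i ∈ B1, r i + ∑ i ∈ B2, r i) ∧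
      ∑ i ∈ B1, r i + ∑ i ∈ B2, r i ≤ ∏ i ∈ B1, (r i + 1) ∧
      ∑ i ∈ B1, r i + ∑ i ∈ B2, r i ≤ ∏ i ∈ B2, (r i + 1) ∧
      ∑ i ∈ B1, r i + ∑ i ∈ B2, r i ≤ 13 * R := by
  classical
  set s0 := univ.filter (fun i => 1 ≤ r i) with hs0
  have e0 : ∑ i ∈ s0, r i = ∑ i, r i := by
    rw [hs0, sum_filter]
    refine sum_congr rfl fun i _ => ?_
    split_ifs with h
    · rfl
    · omega
  have hpos : ∀ i ∈ s0, 1 ≤ r i := fun i hi => (mem_filter.1 hi).2
  obtain ⟨B1, hB1, c1, l1, u1⟩ := exists_block r R hR1 hR s0 (by omega)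
  have e1 : ∑ i ∈ s0 \ B1, r i + ∑ i ∈ B1, r i = ∑ i ∈ s0, r i := sum_sdiff hB1
  obtain ⟨B2, hB2, c2, l2, u2⟩ := exists_block r R hR1 hR (s0 \ B1) (by omega)
  have hdis : Disjoint B1 B2 := by
    rw [Finset.disjoint_left]
    intro i h1 h2
    exact (mem_sdiff.1 (hB2 h2)).2 h1
  have p1 := prod_ge r B1 (fun i hi => hpos i (hB1 hi)) c1
  have p2 := prod_ge r B2 (fun i hi => hpos i (mem_sdiff.1 (hB2 hi)).1) c2
  by_cases ho : Odd (∑ i ∈ B1, r i + ∑ i ∈ B2, r i)
  · exact ⟨B1, B2, hdis, card_pos.1 (by omega), ho, by omega, by omega, by omega⟩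
  · -- an odd factor outside
    have e2 : ∑ i ∈ univ \ (B1 ∪ B2), r i + ∑ i ∈ B1 ∪ B2, r i = ∑ i, r i :=
      sum_sdiff (subset_univ _)
    rw [sum_union hdis] at e2
    obtain ⟨i₀, hi₀, ho₀⟩ : ∃ i₀ ∈ univ \ (B1 ∪ B2), Odd (r i₀) := by
      by_contra hcon
      push Not at hcon
      have h1 : Even (∑ i ∈ univ \ (B1 ∪ B2), r i) :=
        even_sum _ fun i hi => Nat.not_odd_iff_even.1 (hcon i hi)
      have h2 := h1.add (Nat.not_odd_iff_even.1 ho)
      rw [e2] at h2
      exact (Nat.not_even_iff_odd.2 hodd) h2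
    have hn := (mem_sdiff.1 hi₀).2
    rw [mem_union, not_or] at hn
    have e3 : ∑ i ∈ insert i₀ B1, r i = r i₀ + ∑ i ∈ B1, r i := sum_insert hn.1
    have e4 : ∏ i ∈ insert i₀ B1, (r i + 1) = (r i₀ + 1) * ∏ i ∈ B1, (r i + 1) :=
      prod_insert hn.1
    have h5 := hR i₀
    have h6 : ∏ i ∈ B1, (r i + 1) ≤ (r i₀ + 1) * ∏ i ∈ B1, (r i + 1) :=
      Nat.le_mul_of_pos_left _ (by omega)
    refine ⟨insert i₀ B1, B2, ?_, insert_nonempty _ _, ?_, ?_, ?_, ?_⟩
    · rw [disjoint_insert_left]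
      exact ⟨hn.2, hdis⟩
    · rw [e3, add_assoc]
      exact ho₀.add_even (Nat.not_odd_iff_even.1 ho)
    · rw [e3, e4]; omega
    · rw [e3]; omega
    · rw [e3]; omega

/-- One factor with a spanning subgraph of degree one and odd degree, all others even. -/
theorem odd_core {ι : Type} [Fintype ι] {V : ι → Type} [∀ i, Finite (V i)] [∀ i, Nonempty (V i)]
    (G : ∀ i, SimpleGraph (V i)) (r : ι → ℕ) (R j : ℕ)
    (hdeg : ∀ i v, ((G i).neighborSet v).ncard = r i) (i₀ : ι) (hM : Mat (G i₀))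
    (hodd : Odd (r i₀)) (hev : ∀ i, i ≠ i₀ → Even (r i)) (hR : ∀ i, r i ≤ R)
    (h : 2 ^ j * R ≤ ∑ i, r i - 1) (h2 : 6 * (∑ i, r i - 1) ≤ 3 ^ 2 ^ j + 8) :
    la (piG G) = (∑ i, r i + 2) / 2 := by
  classical
  obtain ⟨Q0, hQG, hQ1⟩ := hM
  have hm : ∀ v, ((G i₀ \ Q0).neighborSet v).ncard + 1 = ((G i₀).neighborSet v).ncard := by
    intro v
    have h3 : (G i₀ \ Q0).neighborSet v = (G i₀).neighborSet v \ Q0.neighborSet v := by
      ext u
      simp [SimpleGraph.sdiff_adj]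
    have h4 : Q0.neighborSet v ⊆ (G i₀).neighborSet v := fun u hu => hQG hu
    rw [h3, ← hQ1 v]
    exact Set.ncard_sdiff_add_ncard_of_subset h4 (Set.toFinite _)
  let G' : ∀ i, SimpleGraph (V i) := Function.update G i₀ (G i₀ \ Q0)
  let r' : ι → ℕ := Function.update r i₀ (r i₀ - 1)
  have hr0 : 1 ≤ r i₀ := hodd.pos
  have hG' : ∀ i, i ≠ i₀ → G' i = G i := fun i hi => Function.update_of_ne hi _ _
  have hG0 : G' i₀ = G i₀ \ Q0 := Function.update_self _ _ _
  have hr' : ∀ i, i ≠ i₀ → r' i = r i := fun i hi => Function.update_of_ne hi _ _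
  have hr0' : r' i₀ = r i₀ - 1 := Function.update_self _ _ _
  have hdeg' : ∀ i v, ((G' i).neighborSet v).ncard = r' i := by
    intro i v
    by_cases hi : i = i₀
    · subst hi
      rw [hG0, hr0']
      have h3 := hm v
      rw [hdeg i v] at h3
      omega
    · rw [hG' i hi, hr' i hi]
      exact hdeg i v
  have hs : ∑ i, r' i + 1 = ∑ i, r i := by
    rw [← add_sum_erase univ r' (mem_univ i₀), ← add_sum_erase univ r (mem_univ i₀), hr0']
    have : ∑ i ∈ univ.erase i₀, r' i = ∑ i ∈ univ.erase i₀, r i :=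
      sum_congr rfl fun i hi => hr' i (ne_of_mem_erase hi)
    rw [this]
    omega
  have hev' : ∀ i, Even (r' i) := by
    intro i
    by_cases hi : i = i₀
    · subst hi
      rw [hr0']
      obtain ⟨m, hm⟩ := hodd
      exact ⟨m, by omega⟩
    · rw [hr' i hi]
      exact hev i hi
  have hR' : ∀ i, r' i ≤ R := by
    intro i
    by_cases hi : i = i₀
    · subst hi
      rw [hr0']
      have := hR i
      omega
    · rw [hr' i hi]
      exact hR i
  have key := long_even G' r' R 3 j hdeg' hev' hR' (by norm_num)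
    (fun i v c hc => hc.three_le_length) (by
    have : ∑ i, r' i = ∑ i, r i - 1 := by omega
    rw [this]; exact h)
  have hevs : Even (∑ i, r' i) := even_sum _ fun i _ => hev' i
  obtain ⟨κ, iκ, H, k1, k2, k3, k4⟩ := key
  let Q : ∀ i, SimpleGraph (V i) := Function.update (fun _ => ⊥) i₀ Q0
  have hQ' : ∀ i, i ≠ i₀ → Q i = ⊥ := fun i hi => Function.update_of_ne hi _ _
  have hQ0 : Q i₀ = Q0 := Function.update_self _ _ _
  have hQd : ∀ x, ((piG Q).neighborSet x).ncard ≤ 1 := by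
    intro x
    rw [piG_deg, ← add_sum_erase univ _ (mem_univ i₀), hQ0, hQ1]
    have : ∑ i ∈ univ.erase i₀, ((Q i).neighborSet (x i)).ncard = 0 := by
      refine sum_eq_zero fun i hi => ?_
      rw [hQ' i (ne_of_mem_erase hi)]
      simp
    rw [this]
  have hc := cov_matching H (piG Q) (fun i v => (k2 i v).le) hQd (3 ^ 2 ^ j) (by
    rw [k1]
    omega) (fun i v _ => k3 i v)
  have hsup : piG Q ⊔ ⨆ i, H i = piG G := by
    rw [k4]
    ext x y
    rw [sup_adj, piG_adj, piG_adj, piG_adj]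
    constructor
    · rintro (⟨i, h3, h4⟩ | ⟨i, h3, h4⟩)
      · by_cases hi : i = i₀
        · subst hi
          rw [hQ0] at h3
          exact ⟨i, hQG h3, h4⟩
        · rw [hQ' i hi] at h3
          exact h3.elim
      · by_cases hi : i = i₀
        · subst hi
          rw [hG0] at h3
          exact ⟨i, h3.1, h4⟩
        · rw [hG' i hi] at h3
          exact ⟨i, h3, h4⟩
    · rintro ⟨i, h3, h4⟩
      by_cases hi : i = i₀
      · subst hi
        by_cases hMa : Q0.Adj (x i) (y i)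
        · refine Or.inl ⟨i, ?_, h4⟩
          rw [hQ0]
          exact hMa
        · refine Or.inr ⟨i, ?_, h4⟩
          rw [hG0]
          exact ⟨h3, hMa⟩
      · refine Or.inr ⟨i, ?_, h4⟩
        rw [hG' i hi]
        exact h3
  rw [hsup, k1] at hc
  refine la_eq_of_cov (by omega) (fun x => by
    rw [piG_deg]
    exact sum_congr rfl fun i _ => hdeg _ _) ?_
  have h5 : (∑ i, r i + 2) / 2 = (∑ i, r' i) / 2 + 1 := by
    obtain ⟨m, hm'⟩ := hevs
    omega
  rw [h5]
  exact hc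

/-- The odd case without hypothesis on matchings. -/
theorem odd_all {ι : Type} [Fintype ι] {V : ι → Type} [∀ i, Finite (V i)] [∀ i, Nonempty (V i)]
    (G : ∀ i, SimpleGraph (V i)) (r : ι → ℕ) (R j : ℕ) (hR1 : 1 ≤ R)
    (hdeg : ∀ i v, ((G i).neighborSet v).ncard = r i) (hodd : Odd (∑ i, r i))
    (hR : ∀ i, r i ≤ R) (h : 2 ^ j * (13 * R) ≤ ∑ i, r i - 1)
    (h2 : 6 * (∑ i, r i - 1) ≤ 3 ^ 2 ^ j + 8) : la (piG G) = (∑ i, r i + 2) / 2 := by
  classical
  have hD : 12 * R ≤ ∑ i, r i := by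
    have h3 : 1 * (13 * R) ≤ 2 ^ j * (13 * R) := Nat.mul_le_mul_right _ (Nat.two_pow_pos j)
    omega
  obtain ⟨B1, B2, hdis, ⟨b0, hb0⟩, ho, hp1, hp2, h13⟩ := exists_odd_block r R hR1 hR hodd hD
  set B := B1 ∪ B2 with hB
  have hb0B : b0 ∈ B := mem_union_left _ hb0
  have hBsum : ∑ i ∈ B, r i = ∑ i ∈ B1, r i + ∑ i ∈ B2, r i := sum_union hdis
  have e2 : ∑ i ∈ univ \ B, r i + ∑ i ∈ B, r i = ∑ i, r i := sum_sdiff (subset_univ _)
  have hevs : Even (∑ i ∈ univ \ B, r i) := by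
    rw [← hBsum] at ho
    by_contra hcon
    have h3 := (Nat.not_even_iff_odd.1 hcon).add_odd ho
    rw [e2] at h3
    exact (Nat.not_even_iff_odd.2 hodd) h3
  obtain ⟨π', q1, q2⟩ := pairing r R hR _ (univ \ B) rfl hevs
  let π : ι → ι := fun i => if i ∈ B then b0 else π' i
  have hf0 : univ.filter (fun i => π i = b0) = B := by
    ext i
    rw [mem_filter]
    constructor
    · rintro ⟨-, h3⟩
      by_contra hn
      have h4 : π i = π' i := if_neg hn
      have h5 := (mem_sdiff.1 (q1 i (mem_sdiff.2 ⟨mem_univ _, hn⟩))).2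
      rw [← h4, h3] at h5
      exact h5 hb0B
    · intro h3
      exact ⟨mem_univ _, if_pos h3⟩
  have hfb : ∀ b, b ≠ b0 → univ.filter (fun i => π i = b) =
      (univ \ B).filter (fun i => π' i = b) := by
    intro b hb
    ext i
    rw [mem_filter, mem_filter, mem_sdiff]
    constructor
    · rintro ⟨-, h3⟩
      by_cases hi : i ∈ B
      · have h4 : π i = b0 := if_pos hi
        exact absurd (h3.symm.trans h4) hb
      · have h4 : π i = π' i := if_neg hi
        exact ⟨⟨mem_univ _, hi⟩, h4 ▸ h3⟩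
    · rintro ⟨⟨-, hi⟩, h3⟩
      have h4 : π i = π' i := if_neg hi
      exact ⟨mem_univ _, h4.trans h3⟩
  have hfib : ∀ b, ∑ i : {i // π i = b}, r i.1 = ∑ i ∈ univ.filter (fun i => π i = b), r i :=
    fun b => (Finset.sum_subtype (univ.filter (fun i => π i = b)) (fun i => by simp) r).symm
  have hsum : ∑ b, ∑ i : {i // π i = b}, r i.1 = ∑ i, r i := by
    rw [← sum_fiberwise univ π r]
    exact sum_congr rfl fun b _ => hfib b
  have hsub : ∀ (A : Finset ι) (f : ι → ℕ), A ⊆ B →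
      ∏ i ∈ (univ : Finset {i // π i = b0}).filter (fun i => i.1 ∈ A), f i.1 = ∏ i ∈ A, f i := by
    intro A f hA
    refine prod_bij (fun i _ => i.1) ?_ ?_ ?_ ?_
    · intro i hi
      exact (mem_filter.1 hi).2
    · intro i _ i' _ h3
      exact Subtype.ext h3
    · intro i hi
      have h3 : π i = b0 := by
        have : i ∈ univ.filter (fun i => π i = b0) := by rw [hf0]; exact hA hi
        exact (mem_filter.1 this).2
      exact ⟨⟨i, h3⟩, mem_filter.2 ⟨mem_univ _, hi⟩, rfl⟩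
    · intro i _
      rfl
  have hmat : Mat (piG (fun i : {i // π i = b0} => G i.1)) := by
    refine mat_pi _ (fun i => r i.1) (fun i v => hdeg _ _) (fun i => i.1 ∈ B1) ?_ ?_ ?_
    · rw [hfib, hf0, hBsum]; exact ho
    · rw [hfib, hf0, hBsum]
      refine hp1.trans (le_of_eq ?_)
      exact (hsub B1 (fun i => r i + 1) subset_union_left).symm
    · rw [hfib, hf0, hBsum]
      refine hp2.trans (le_of_eq ?_)
      rw [← hsub B2 (fun i => r i + 1) subset_union_right]
      refine prod_congr ?_ (fun _ _ => rfl)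
      ext i
      rw [mem_filter, mem_filter]
      have hiB : i.1 ∈ B := by
        have : i.1 ∈ univ.filter (fun i => π i = b0) := mem_filter.2 ⟨mem_univ _, i.2⟩
        rwa [hf0] at this
      rcases mem_union.1 hiB with h3 | h3
      · have h4 := Finset.disjoint_left.1 hdis h3
        simp [h3, h4]
      · have h4 := Finset.disjoint_right.1 hdis h3
        simp [h3, h4]
  have key := odd_core (fun b : ι => piG (fun i : {i // π i = b} => G i.1))
    (fun b => ∑ i : {i // π i = b}, r i.1) (13 * R) j (fun b x => by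
      rw [piG_deg]
      exact sum_congr rfl fun i _ => hdeg _ _) b0 hmat (by
      show Odd (∑ i : {i // π i = b0}, r i.1)
      rw [hfib, hf0, hBsum]; exact ho) (fun b hb => by
      show Even (∑ i : {i // π i = b}, r i.1)
      rw [hfib, hfb b hb]; exact (q2 b).1) (fun b => by
      show ∑ i : {i // π i = b}, r i.1 ≤ 13 * R
      rw [hfib]
      by_cases hb : b = b0
      · rw [hb, hf0, hBsum]; exact h13
      · rw [hfb b hb]
        exact (q2 b).2.trans (by omega)) (by rw [hsum]; exact h) (by rw [hsum]; exact h2)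
  rw [hsum] at key
  rw [piG_fiber G π, ← key]
  exact la_iso (Iso.comap _ _)

end Pool.Agent.Y423.LA
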