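import Pool.Agent.Y423.LA.Pat2

set_option autoImplicit false

/-!
Good switching patterns exist on every torus.
-/

namespace Pool.Agent.Y423.LA

/-- The first factor of the switching pattern `T` is connected. -/
def PC (a b : ℕ) (T : ℕ → ℕ → Prop) : Prop :=
  ∀ (α : Type) (c : ℕ → ℕ → α), (∀ i j, c (i + a) j = c i j) → (∀ i j, c i (j + b) = c i j) →
    (∀ i < a, ∀ j < b, ¬ T i j → ¬ T i ((j + b - 1) % b) → c i j = c (i + 1) j) →
    (∀ i < a, ∀ j < b, (T i j ∨ T ((i + a - 1) % a) j) → c i j = c i (j + 1)) →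
    ∀ i < a, ∀ j < b, c i j = c 0 0

/-- A good pattern. -/
def Good (a b : ℕ) (T : ℕ → ℕ → Prop) : Prop :=
  (∀ i < a, ∀ j < b, T i j → ¬ T i ((j + 1) % b)) ∧
  (∀ i < a, ∀ j < b, T i j → ¬ T ((i + 1) % a) j) ∧
  PC a b T ∧ PC b a (fun i j => T j i)

theorem Good.symm {a b : ℕ} {T : ℕ → ℕ → Prop} (h : Good a b T) :
    Good b a (fun i j => T j i) :=
  ⟨fun i hi j hj ht => h.2.1 j hj i hi ht, fun i hi j hj ht => h.1 j hj i hi ht, h.2.2.2,
    h.2.2.1⟩

theorem mod_pred {b j y : ℕ} (hb : 0 < b) (hj : j < b) (h : (j + b - 1) % b = y) :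
    (j = y + 1) ∨ (j = 0 ∧ y = b - 1) := by
  rcases Nat.eq_zero_or_pos j with h0 | h0
  · right
    subst h0
    rw [Nat.zero_add, Nat.mod_eq_of_lt (by omega)] at h
    exact ⟨rfl, h.symm⟩
  · left
    have : j + b - 1 = (j - 1) + b := by omega
    rw [this, Nat.add_mod_right, Nat.mod_eq_of_lt (by omega)] at h
    omega

theorem succ_mod_pred {b y : ℕ} (hy : y < b) : (y + 1 + b - 1) % b = y := by
  rw [show y + 1 + b - 1 = y + b by omega, Nat.add_mod_right, Nat.mod_eq_of_lt hy]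

theorem zero_mod_pred {b : ℕ} (hb : 0 < b) : (0 + b - 1) % b = b - 1 := by
  rw [Nat.zero_add, Nat.mod_eq_of_lt (by omega)]

/-- The exclusivity in the second variable for graphs of functions. -/
theorem excl1 (b : ℕ) (hb : 2 ≤ b) (N : ℕ) (Y : ℕ → ℕ) (i j : ℕ) (hj : j < b)
    (h : i < N ∧ j = Y i) : ¬ (i < N ∧ (j + 1) % b = Y i) := by
  rintro ⟨_, h2⟩
  rw [← h.2] at h2
  rcases lt_or_eq_of_le (show j + 1 ≤ b by omega) with h3 | h3
  · rw [Nat.mod_eq_of_lt h3] at h2; omega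
  · rw [h3, Nat.mod_self] at h2; omega

theorem excl2 (a : ℕ) (N : ℕ) (Y : ℕ → ℕ) (hN : N < a) (hY : ∀ i, i + 1 < N → Y i ≠ Y (i + 1))
    (i j : ℕ) (hi : i < a) (h : i < N ∧ j = Y i) : ¬ ((i + 1) % a < N ∧ j = Y ((i + 1) % a)) := by
  rw [Nat.mod_eq_of_lt (by omega)]
  rintro ⟨h1, h2⟩
  exact hY i h1 (h.2.symm.trans h2)

/-- The second factor for planar patterns. -/
theorem qpc (a b : ℕ) (ha : 3 ≤ a) (hb : 0 < b) (Y : ℕ → ℕ)
    (hYb : ∀ i, i < a - 1 → Y i < b) (hYn : ∀ i, i + 1 < a - 1 → Y i ≠ Y (i + 1)) :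
    PC b a (fun i j => j < a - 1 ∧ i = Y j) := by
  intro α c per2 per1 hh hv
  have key := q_planar (fun i j => c j i) a b ha Y hYb hYn
    (fun i => by have := per2 0 i; rwa [Nat.zero_add] at this) ?_ ?_ ?_
  · intro i hi j hj
    exact key j hj i hi
  · intro i hi
    exact hv (Y i) (hYb i hi) i (by omega) (Or.inl ⟨hi, rfl⟩)
  · intro i hi
    show c (Y i + 1) i = c (Y i + 1) (i + 1)
    rcases lt_or_eq_of_le (show Y i + 1 ≤ b by have := hYb i hi; omega) with h | h
    · refine hv (Y i + 1) h i (by omega) (Or.inr ⟨hi, ?_⟩)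
      exact succ_mod_pred (hYb i hi)
    · have h0 := hv 0 hb i (by omega) (Or.inr ⟨hi, by rw [zero_mod_pred hb]; omega⟩)
      have e1 := per2 0 i
      have e2 := per2 0 (i + 1)
      rw [Nat.zero_add] at e1 e2
      rw [h, e1, e2, h0]
  · intro i hi j hj h1 h2
    refine hh j hj i hi (fun h => h1 h.1 h.2) (fun h => ?_)
    rcases mod_pred (by omega) hi (rfl : (i + a - 1) % a = (i + a - 1) % a) with h3 | h3
    · exact h2 _ h3 h.2
    · have := h.1
      omega

theorem Y1_ub (b x : ℕ) (hb : 3 ≤ b) : Y1 b x < b - 1 := by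
  unfold Y1
  split_ifs <;> omega

theorem Y2_ub (b x : ℕ) (hb : 3 ≤ b) : Y2 b x < b := by
  unfold Y2
  split_ifs <;> omega

theorem Y1_ne (b x : ℕ) (hb : 3 ≤ b) : Y1 b x ≠ Y1 b (x + 1) := by
  unfold Y1
  split_ifs <;> omega

theorem Y2_ne (b x : ℕ) (hb : 3 ≤ b) : Y2 b x ≠ Y2 b (x + 1) := by
  unfold Y2
  split_ifs <;> omega

/-- The first factor, first pattern. -/
theorem ppc_one (a b k N : ℕ) (hb : 3 ≤ b) (hN : N = b - 1 + 2 * k) (hNa : N ≤ a) :
    PC a b (fun i j => i < N ∧ j = Y1 b i) := by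
  intro α c per1 per2 hh hv
  have hYb : ∀ x, Y1 b x < b - 1 := fun x => Y1_ub b x hb
  have p1 : ∀ j, c a j = c 0 j := fun j => by have := per1 0 j; rwa [Nat.zero_add] at this
  subst hN
  refine p_one c a b k hb hNa p1 ?_ ?_ ?_
  · intro i hi j hj h
    refine hh i hi j hj (fun h1 => (h h1.1).1 h1.2) (fun h1 => ?_)
    rcases mod_pred (by omega) hj h1.2 with h2 | h2
    · exact (h h1.1).2 h2
    · have := hYb i
      omega
  · intro i hi
    have := hYb i
    exact hv i (by omega) _ (by omega) (Or.inl ⟨hi, rfl⟩)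
  · intro i hi
    have := hYb i
    rcases lt_or_eq_of_le (show i + 1 ≤ a by omega) with h | h
    · exact hv (i + 1) h _ (by omega) (Or.inr (by rw [succ_mod_pred (by omega)]; exact ⟨hi, rfl⟩))
    · rw [h, p1, p1]
      refine hv 0 (by omega) _ (by omega) (Or.inr ?_)
      rw [zero_mod_pred (by omega), show a - 1 = i by omega]
      exact ⟨hi, rfl⟩

/-- The first factor, second pattern. -/
theorem ppc_two (a b k N : ℕ) (hb : 3 ≤ b) (hodd : b % 2 = 1) (hN : N = b + 2 * k)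
    (hNa : N + 1 = a) : PC a b (fun i j => i < N ∧ j = Y2 b i) := by
  intro α c per1 per2 hh hv
  have hYb : ∀ x, Y2 b x < b := fun x => Y2_ub b x hb
  have p1 : ∀ j, c a j = c 0 j := fun j => by have := per1 0 j; rwa [Nat.zero_add] at this
  have p2 : ∀ i, c i b = c i 0 := fun i => by have := per2 i 0; rwa [Nat.zero_add] at this
  subst hN
  subst hNa
  refine p_two c b k hb hodd p1 p2 ?_ ?_ ?_
  · intro i hi j hj h
    refine hh i hi j hj (fun h1 => (h h1.1).1 h1.2) (fun h1 => ?_)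
    rcases mod_pred (by omega) hj h1.2 with h2 | h2
    · refine (h h1.1).2 ?_
      rw [← h2, Nat.mod_eq_of_lt hj]
    · refine (h h1.1).2 ?_
      rw [h2.2, show b - 1 + 1 = b by omega, Nat.mod_self]
      exact h2.1
  · intro i hi
    exact hv i (by omega) _ (hYb i) (Or.inl ⟨hi, rfl⟩)
  · intro i hi
    exact hv (i + 1) (by omega) _ (hYb i) (Or.inr (by
      rw [succ_mod_pred (by omega)]; exact ⟨hi, rfl⟩))

/-- The second factor for the closed pattern. -/
theorem qpc_closed (a b : ℕ) (ha : a % 2 = 1) (ha3 : 3 ≤ a) (hb : 0 < b) (Y : ℕ → ℕ)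
    (hYb : ∀ i, i < a → Y i < b) (hYn : ∀ i, i + 1 < a → Y i ≠ Y (i + 1)) (hY0 : Y 0 ≠ Y (a - 1)) :
    PC b a (fun i j => j < a ∧ i = Y j) := by
  intro α c per2 per1 hh hv
  have p1 : ∀ i, c i a = c i 0 := fun i => by have := per1 i 0; rwa [Nat.zero_add] at this
  have p2 : ∀ j, c b j = c 0 j := fun j => by have := per2 0 j; rwa [Nat.zero_add] at this
  have key := q_closed (fun i j => c j i) a b ha Y hYb hYn hY0 ha3 p1 p2 ?_ ?_ ?_
  · intro i hi j hj
    exact key j hj i hi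
  · intro i hi
    exact hv (Y i) (hYb i hi) i hi (Or.inl ⟨hi, rfl⟩)
  · intro i hi
    show c (Y i + 1) i = c (Y i + 1) (i + 1)
    rcases lt_or_eq_of_le (show Y i + 1 ≤ b by have := hYb i hi; omega) with h | h
    · exact hv (Y i + 1) h i hi (Or.inr ⟨hi, succ_mod_pred (hYb i hi)⟩)
    · have h0 := hv 0 hb i hi (Or.inr ⟨hi, by rw [zero_mod_pred hb]; omega⟩)
      rw [h, p2, p2, h0]
  · intro i hi j hj h1 h2
    refine hh j hj i hi (fun h => h1 h.2) (fun h => ?_)
    refine h2 ((i + a - 1) % a) h.1 ?_ h.2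
    rcases mod_pred (by omega) hi (rfl : (i + a - 1) % a = (i + a - 1) % a) with h3 | h3
    · rw [← h3, Nat.mod_eq_of_lt hi]
    · rw [h3.2, show a - 1 + 1 = a by omega, Nat.mod_self]
      exact h3.1

theorem exists_good_aux (a b : ℕ) (hb : 3 ≤ b) (hab : b ≤ a) : ∃ T, Good a b T := by
  rcases Nat.mod_two_eq_zero_or_one (a - b) with h | h
  · -- same parity
    refine ⟨fun i j => i < a - 1 ∧ j = Y1 b i, ?_, ?_, ?_, ?_⟩
    · intro i _ j hj ht
      exact excl1 b (by omega) (a - 1) (Y1 b) i j hj ht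
    · intro i hi j _ ht
      exact excl2 a (a - 1) (Y1 b) (by omega) (fun i _ => Y1_ne b i hb) i j hi ht
    · exact ppc_one a b ((a - b) / 2) (a - 1) hb (by omega) (by omega)
    · exact qpc a b (by omega) (by omega) (Y1 b) (fun i _ => by have := Y1_ub b i hb; omega)
        (fun i _ => Y1_ne b i hb)
  · rcases Nat.mod_two_eq_zero_or_one a with h1 | h1
    · -- a even, b odd
      refine ⟨fun i j => i < a - 1 ∧ j = Y2 b i, ?_, ?_, ?_, ?_⟩
      · intro i _ j hj ht
        exact excl1 b (by omega) (a - 1) (Y2 b) i j hj ht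
      · intro i hi j _ ht
        exact excl2 a (a - 1) (Y2 b) (by omega) (fun i _ => Y2_ne b i hb) i j hi ht
      · exact ppc_two a b ((a - 1 - b) / 2) (a - 1) hb (by omega) (by omega) (by omega)
      · exact qpc a b (by omega) (by omega) (Y2 b) (fun i _ => Y2_ub b i hb)
          (fun i _ => Y2_ne b i hb)
    · -- a odd, b even
      have hY0 : Y1 b 0 ≠ Y1 b (a - 1) := by
        rw [Y1_lt (by omega)]
        unfold Y1
        split_ifs <;> omega
      refine ⟨fun i j => i < a ∧ j = Y1 b i, ?_, ?_, ?_, ?_⟩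
      · intro i _ j hj ht
        exact excl1 b (by omega) a (Y1 b) i j hj ht
      · rintro i hi j _ ht ⟨_, h2⟩
        rcases lt_or_eq_of_le (show i + 1 ≤ a by omega) with h3 | h3
        · rw [Nat.mod_eq_of_lt h3] at h2
          exact Y1_ne b i hb (ht.2.symm.trans h2)
        · rw [h3, Nat.mod_self] at h2
          refine hY0 ?_
          rw [← h2, ht.2, show a - 1 = i by omega]
      · exact ppc_one a b ((a - (b - 1)) / 2) a hb (by omega) le_rfl
      · exact qpc_closed a b h1 (by omega) (by omega) (Y1 b)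
          (fun i _ => by have := Y1_ub b i hb; omega) (fun i _ => Y1_ne b i hb) hY0

theorem exists_good (a b : ℕ) (ha : 3 ≤ a) (hb : 3 ≤ b) : ∃ T, Good a b T := by
  rcases le_total b a with h | h
  · exact exists_good_aux a b hb h
  · obtain ⟨T, hT⟩ := exists_good_aux b a ha h
    exact ⟨_, hT.symm⟩

end Pool.Agent.Y423.LA
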