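import Pool.Agent.Y423.LA.Pat

set_option autoImplicit false

/-!
Switching patterns on a torus: the rows.
-/

namespace Pool.Agent.Y423.LA

/-- The first pattern. -/
def Y1 (b x : ℕ) : ℕ := if x < b - 1 then x else if (x - (b - 1)) % 2 = 0 then b - 3 else b - 2

/-- The second pattern. -/
def Y2 (b x : ℕ) : ℕ := if x < b then x else if (x - b) % 2 = 0 then 0 else b - 1

theorem Y1_lt {b x : ℕ} (h : x < b - 1) : Y1 b x = x := by unfold Y1; rw [if_pos h]

theorem Y1_ev {b : ℕ} (t : ℕ) : Y1 b (b - 1 + 2 * t) = b - 3 := by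
  unfold Y1
  rw [if_neg (by omega), if_pos (by omega)]

theorem Y1_od {b : ℕ} (t : ℕ) : Y1 b (b - 1 + 2 * t + 1) = b - 2 := by
  unfold Y1
  rw [if_neg (by omega), if_neg (by omega)]

theorem Y2_lt {b x : ℕ} (h : x < b) : Y2 b x = x := by unfold Y2; rw [if_pos h]

theorem Y2_ev {b : ℕ} (t : ℕ) : Y2 b (b + 2 * t) = 0 := by
  unfold Y2
  rw [if_neg (by omega), if_pos (by omega)]

theorem Y2_od {b : ℕ} (t : ℕ) : Y2 b (b + 2 * t + 1) = b - 1 := by
  unfold Y2
  rw [if_neg (by omega), if_neg (by omega)]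

/-- The rows for the first pattern with `N = b - 1 + 2 k` switches. -/
theorem p_one {α : Type} (c : ℕ → ℕ → α) (a b k : ℕ) (hb : 3 ≤ b) (hNa : b - 1 + 2 * k ≤ a)
    (per1 : ∀ j, c a j = c 0 j)
    (hh : ∀ i < a, ∀ j < b, (i < b - 1 + 2 * k → j ≠ Y1 b i ∧ j ≠ Y1 b i + 1) →
      c i j = c (i + 1) j)
    (v1 : ∀ i < b - 1 + 2 * k, c i (Y1 b i) = c i (Y1 b i + 1))
    (v2 : ∀ i < b - 1 + 2 * k, c (i + 1) (Y1 b i) = c (i + 1) (Y1 b i + 1)) :
    ∀ i < a, ∀ j < b, c i j = c 0 0 := by
  set N := b - 1 + 2 * k with hN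
  -- the values of the pattern to the right
  have hY : ∀ i, b - 2 ≤ i → Y1 b i = b - 3 ∨ Y1 b i = b - 2 := by
    intro i hi
    rcases lt_or_eq_of_le hi with h | h
    · unfold Y1
      rw [if_neg (by omega)]
      split_ifs
      · left; rfl
      · right; rfl
    · right
      rw [← h, Y1_lt (by omega)]
  -- (A)
  have A : ∀ j, j < b - 3 → ∀ i, b - 2 ≤ i → i ≤ a → c i j = c (b - 2) j := by
    intro j hj
    refine run (fun i => c i j) (b - 2) a (fun i h1 h2 => ?_)
    refine hh i h2 j (by omega) (fun _ => ?_)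
    rcases hY i h1 with h | h <;> omega
  -- (B)
  have step : ∀ t < k, ∀ x, c (b - 1 + 2 * t) (b - 3) = x →
      c (b - 1 + 2 * t) (b - 2) = x ∧ c (b - 1 + 2 * t) (b - 1) = x ∧
      c (b - 1 + 2 * t + 1) (b - 3) = x ∧ c (b - 1 + 2 * t + 1) (b - 2) = x ∧
      c (b - 1 + 2 * t + 1) (b - 1) = x ∧ c (b - 1 + 2 * (t + 1)) (b - 3) = x := by
    intro t ht x hx
    have e1 : c (b - 1 + 2 * t) (b - 3) = c (b - 1 + 2 * t) (b - 2) := by
      have := v1 (b - 1 + 2 * t) (by omega)
      rw [Y1_ev] at this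
      rw [this]; congr 1; omega
    have e2 : c (b - 1 + 2 * t) (b - 2) = c (b - 1 + 2 * t) (b - 1) := by
      rcases Nat.eq_zero_or_pos t with h0 | h0
      · subst h0
        have := v2 (b - 2) (by omega)
        rw [Y1_lt (by omega)] at this
        rw [show b - 1 + 2 * 0 = b - 2 + 1 by omega, this]
        congr 1; omega
      · obtain ⟨s, rfl⟩ : ∃ s, t = s + 1 := ⟨t - 1, by omega⟩
        have := v2 (b - 1 + 2 * s + 1) (by omega)
        rw [Y1_od] at this
        rw [show b - 1 + 2 * (s + 1) = b - 1 + 2 * s + 1 + 1 by omega, this]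
        congr 1; omega
    have e3 : c (b - 1 + 2 * t) (b - 1) = c (b - 1 + 2 * t + 1) (b - 1) := by
      refine hh _ (by omega) _ (by omega) (fun _ => ?_)
      rw [Y1_ev]; omega
    have e4 : c (b - 1 + 2 * t + 1) (b - 2) = c (b - 1 + 2 * t + 1) (b - 1) := by
      have := v1 (b - 1 + 2 * t + 1) (by omega)
      rw [Y1_od] at this
      rw [this]; congr 1; omega
    have e5 : c (b - 1 + 2 * t + 1) (b - 3) = c (b - 1 + 2 * t + 1) (b - 2) := by
      have := v2 (b - 1 + 2 * t) (by omega)
      rw [Y1_ev] at this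
      rw [this]; congr 1; omega
    have e6 : c (b - 1 + 2 * t + 1) (b - 3) = c (b - 1 + 2 * (t + 1)) (b - 3) := by
      rw [show b - 1 + 2 * (t + 1) = b - 1 + 2 * t + 1 + 1 by omega]
      refine hh _ (by omega) _ (by omega) (fun _ => ?_)
      rw [Y1_od]; omega
    have f1 : c (b - 1 + 2 * t) (b - 2) = x := by rw [← e1, hx]
    have f2 : c (b - 1 + 2 * t) (b - 1) = x := by rw [← e2, f1]
    have f3 : c (b - 1 + 2 * t + 1) (b - 1) = x := by rw [← e3, f2]
    have f4 : c (b - 1 + 2 * t + 1) (b - 2) = x := by rw [e4, f3]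
    have f5 : c (b - 1 + 2 * t + 1) (b - 3) = x := by rw [e5, f4]
    exact ⟨f1, f2, f5, f4, f3, by rw [← e6, f5]⟩
  have B0 : c (b - 2) (b - 3) = c (b - 1) (b - 3) := by
    have := hh (b - 2) (by omega) (b - 3) (by omega) (fun _ => by
      rw [Y1_lt (by omega)]; omega)
    rw [this]; congr 1; omega
  have B : ∀ t ≤ k, c (b - 1 + 2 * t) (b - 3) = c (b - 2) (b - 3) := by
    intro t
    induction t with
    | zero => intro _; rw [B0]; rfl
    | succ t ih =>
      intro ht
      exact (step t (by omega) _ (ih (by omega))).2.2.2.2.2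
  have tail : ∀ j < b, ∀ i, N ≤ i → i ≤ a → c i j = c 0 j := by
    intro j hj i hi1 hi2
    have h1 := run (fun i => c i j) N a (fun i h1 h2 => hh i h2 j hj (fun h => by omega))
    have h2 := h1 i hi1 hi2
    have h3 := h1 a (by omega) le_rfl
    beta_reduce at h2 h3
    rw [h2, ← h3, per1]
  have F1 : ∀ j, j ≤ b - 3 → c (b - 2) j = c 0 j := by
    intro j hj
    rcases lt_or_eq_of_le hj with h | h
    · rw [← A j h a (by omega) le_rfl, per1]
    · rw [h, ← B k le_rfl]
      exact tail _ (by omega) _ (by omega) (by omega)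
  -- the left region
  have L1 : ∀ j < b, ∀ i, i + 1 ≤ j → c i j = c 0 j := by
    intro j hj i hi
    refine run (fun i => c i j) 0 (j - 1) (fun i h1 h2 => ?_) i (by omega) (by omega)
    refine hh i (by omega) j hj (fun _ => ?_)
    rw [Y1_lt (by omega)]; omega
  have L2 : ∀ j, ∀ i, j + 1 ≤ i → i ≤ b - 2 → c i j = c (j + 1) j := by
    intro j i hi1 hi2
    refine run (fun i => c i j) (j + 1) (b - 2) (fun i h1 h2 => ?_) i hi1 hi2
    refine hh i (by omega) j (by omega) (fun _ => ?_)
    rw [Y1_lt (by omega)]; omega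
  have D1 : ∀ i, i ≤ b - 2 → c i i = c i (i + 1) := by
    intro i hi
    have := v1 i (by omega)
    rwa [Y1_lt (by omega)] at this
  have D2 : ∀ i, i ≤ b - 2 → c (i + 1) i = c (i + 1) (i + 1) := by
    intro i hi
    have := v2 i (by omega)
    rwa [Y1_lt (by omega)] at this
  have two : ∀ j, j ≤ b - 3 → c 0 (j + 2) = c 0 j := by
    intro j hj
    rw [← F1 j hj, L2 j (b - 2) (by omega) le_rfl, D2 j (by omega), D1 (j + 1) (by omega),
      L1 (j + 2) (by omega) (j + 1) (by omega)]
  have all0 : ∀ j < b, c 0 j = c 0 0 := by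
    intro j
    induction j using Nat.strong_induction_on with
    | _ j ih =>
      intro hj
      rcases j with _ | j
      · rfl
      · rcases j with _ | j
        · have := D1 0 (by omega)
          rw [zero_add] at this
          rw [zero_add, ← this]
        · rw [two j (by omega)]
          exact ih j (by omega) (by omega)
  have red : ∀ i < a, ∀ j < b, ∃ j' < b, c i j = c 0 j' := by
    intro i hi j hj
    rcases le_or_gt i (b - 2) with h1 | h1
    · rcases lt_trichotomy i j with h2 | h2 | h2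
      · exact ⟨j, hj, L1 j hj i (by omega)⟩
      · subst h2
        refine ⟨i + 1, by omega, ?_⟩
        rw [D1 i h1, L1 (i + 1) (by omega) i (by omega)]
      · refine ⟨j, hj, ?_⟩
        rw [L2 j i (by omega) h1, ← L2 j (b - 2) (by omega) le_rfl, F1 j (by omega)]
    · rcases lt_or_ge j (b - 3) with h2 | h2
      · exact ⟨j, hj, by rw [A j h2 i (by omega) (by omega), F1 j (by omega)]⟩
      · rcases lt_or_ge i N with h3 | h3
        · refine ⟨b - 3, by omega, ?_⟩
          rw [← F1 (b - 3) le_rfl]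
          rcases Nat.mod_two_eq_zero_or_one (i - (b - 1)) with h4 | h4
          · obtain ⟨t, ht⟩ : ∃ t, i = b - 1 + 2 * t := ⟨(i - (b - 1)) / 2, by omega⟩
            have hs := step t (by omega) _ (B t (by omega))
            have hj3 : j = b - 3 ∨ j = b - 2 ∨ j = b - 1 := by omega
            rw [ht]
            rcases hj3 with h5 | h5 | h5 <;> rw [h5]
            · exact B t (by omega)
            · exact hs.1
            · exact hs.2.1
          · obtain ⟨t, ht⟩ : ∃ t, i = b - 1 + 2 * t + 1 := ⟨(i - (b - 1)) / 2, by omega⟩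
            have hs := step t (by omega) _ (B t (by omega))
            have hj3 : j = b - 3 ∨ j = b - 2 ∨ j = b - 1 := by omega
            rw [ht]
            rcases hj3 with h5 | h5 | h5 <;> rw [h5]
            · exact hs.2.2.1
            · exact hs.2.2.2.1
            · exact hs.2.2.2.2.1
        · exact ⟨j, hj, tail j hj i h3 hi.le⟩
  intro i hi j hj
  obtain ⟨j', hj', h⟩ := red i hi j hj
  rw [h, all0 j' hj']

/-- The rows for the second pattern, `b` odd, `a = b + 2 k + 1`. -/
theorem p_two {α : Type} (c : ℕ → ℕ → α) (b k : ℕ) (hb : 3 ≤ b) (hodd : b % 2 = 1)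
    (per1 : ∀ j, c (b + 2 * k + 1) j = c 0 j) (per2 : ∀ i, c i b = c i 0)
    (hh : ∀ i < b + 2 * k + 1, ∀ j < b, (i < b + 2 * k → j ≠ Y2 b i ∧ j ≠ (Y2 b i + 1) % b) →
      c i j = c (i + 1) j)
    (v1 : ∀ i < b + 2 * k, c i (Y2 b i) = c i (Y2 b i + 1))
    (v2 : ∀ i < b + 2 * k, c (i + 1) (Y2 b i) = c (i + 1) (Y2 b i + 1)) :
    ∀ i < b + 2 * k + 1, ∀ j < b, c i j = c 0 0 := by
  have hY : ∀ i, b ≤ i → Y2 b i = 0 ∨ Y2 b i = b - 1 := by
    intro i hi
    unfold Y2
    rw [if_neg (by omega)]
    split_ifs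
    · left; rfl
    · right; rfl
  have hbm : (b - 1 + 1) % b = 0 := by rw [show b - 1 + 1 = b by omega, Nat.mod_self]
  have h1m : (0 + 1) % b = 1 := by rw [Nat.mod_eq_of_lt (by omega)]
  -- (A)
  have A : ∀ j, 2 ≤ j → j ≤ b - 2 → ∀ i, b ≤ i → i ≤ b + 2 * k + 1 → c i j = c b j := by
    intro j hj1 hj2
    refine run (fun i => c i j) b (b + 2 * k + 1) (fun i h1 h2 => ?_)
    refine hh i h2 j (by omega) (fun _ => ?_)
    rcases hY i h1 with h | h <;> rw [h]
    · rw [h1m]; omega
    · rw [hbm]; omega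
  have last : ∀ t, t ≤ k → c (b + 2 * t) (b - 1) = c (b + 2 * t) 0 := by
    intro t ht
    rcases Nat.eq_zero_or_pos t with h0 | h0
    · subst h0
      have := v2 (b - 1) (by omega)
      rw [Y2_lt (by omega), show b - 1 + 1 = b by omega, per2] at this
      exact this
    · obtain ⟨s, rfl⟩ : ∃ s, t = s + 1 := ⟨t - 1, by omega⟩
      have := v2 (b + 2 * s + 1) (by omega)
      rw [Y2_od, show b - 1 + 1 = b by omega, per2] at this
      exact this
  have step : ∀ t < k, ∀ x, c (b + 2 * t) 1 = x →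
      c (b + 2 * t) 0 = x ∧ c (b + 2 * t) (b - 1) = x ∧
      c (b + 2 * t + 1) 1 = x ∧ c (b + 2 * t + 1) 0 = x ∧
      c (b + 2 * t + 1) (b - 1) = x ∧ c (b + 2 * (t + 1)) 1 = x := by
    intro t ht x hx
    have e1 : c (b + 2 * t) 0 = c (b + 2 * t) 1 := by
      have := v1 (b + 2 * t) (by omega)
      rwa [Y2_ev] at this
    have e2 := last t ht.le
    have e3 : c (b + 2 * t) (b - 1) = c (b + 2 * t + 1) (b - 1) := by
      refine hh _ (by omega) _ (by omega) (fun _ => ?_)
      rw [Y2_ev, h1m]; omega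
    have e4 : c (b + 2 * t + 1) (b - 1) = c (b + 2 * t + 1) 0 := by
      have := v1 (b + 2 * t + 1) (by omega)
      rwa [Y2_od, show b - 1 + 1 = b by omega, per2] at this
    have e5 : c (b + 2 * t + 1) 0 = c (b + 2 * t + 1) 1 := by
      have := v2 (b + 2 * t) (by omega)
      rwa [Y2_ev] at this
    have e6 : c (b + 2 * t + 1) 1 = c (b + 2 * (t + 1)) 1 := by
      rw [show b + 2 * (t + 1) = b + 2 * t + 1 + 1 by omega]
      refine hh _ (by omega) _ (by omega) (fun _ => ?_)
      rw [Y2_od, hbm]; omega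
    have f1 : c (b + 2 * t) 0 = x := by rw [e1, hx]
    have f2 : c (b + 2 * t) (b - 1) = x := by rw [e2, f1]
    have f3 : c (b + 2 * t + 1) (b - 1) = x := by rw [← e3, f2]
    have f4 : c (b + 2 * t + 1) 0 = x := by rw [← e4, f3]
    have f5 : c (b + 2 * t + 1) 1 = x := by rw [← e5, f4]
    exact ⟨f1, f2, f5, f4, f3, by rw [← e6, f5]⟩
  have B : ∀ t ≤ k, c (b + 2 * t) 1 = c b 1 := by
    intro t
    induction t with
    | zero => intro _; rfl
    | succ t ih =>
      intro ht
      exact (step t (by omega) _ (ih (by omega))).2.2.2.2.2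
  have tail : ∀ j < b, c (b + 2 * k) j = c 0 j := by
    intro j hj
    rw [hh (b + 2 * k) (by omega) j hj (fun h => by omega), per1]
  have F1 : ∀ j, 1 ≤ j → j ≤ b - 2 → c b j = c 0 j := by
    intro j hj1 hj2
    rcases Nat.lt_or_ge 1 j with h | h
    · rw [← A j h hj2 (b + 2 * k + 1) (by omega) le_rfl, per1]
    · have : j = 1 := by omega
      rw [this, ← B k le_rfl]
      exact tail 1 (by omega)
  have F2 : c 0 (b - 1) = c 0 0 := by
    rw [← tail (b - 1) (by omega), last k le_rfl, tail 0 (by omega)]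
  -- the left region
  have L1 : ∀ j < b, ∀ i, i + 1 ≤ j → c i j = c 0 j := by
    intro j hj i hi
    refine run (fun i => c i j) 0 (j - 1) (fun i h1 h2 => ?_) i (by omega) (by omega)
    refine hh i (by omega) j hj (fun _ => ?_)
    rw [Y2_lt (by omega), Nat.mod_eq_of_lt (by omega)]; omega
  have L2 : ∀ j, 1 ≤ j → ∀ i, j + 1 ≤ i → i ≤ b → c i j = c (j + 1) j := by
    intro j hj i hi1 hi2
    refine run (fun i => c i j) (j + 1) b (fun i h1 h2 => ?_) i hi1 hi2
    refine hh i (by omega) j (by omega) (fun _ => ?_)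
    rw [Y2_lt (by omega)]
    refine ⟨by omega, ?_⟩
    rcases lt_or_eq_of_le (show i + 1 ≤ b by omega) with h3 | h3
    · rw [Nat.mod_eq_of_lt h3]; omega
    · rw [h3, Nat.mod_self]; omega
  have L0 : ∀ i, 1 ≤ i → i ≤ b - 1 → c i 0 = c 1 0 := by
    intro i hi1 hi2
    refine run (fun i => c i 0) 1 (b - 1) (fun i h1 h2 => ?_) i hi1 hi2
    refine hh i (by omega) 0 (by omega) (fun _ => ?_)
    rw [Y2_lt (by omega), Nat.mod_eq_of_lt (by omega)]; omega
  have D1 : ∀ i, i ≤ b - 1 → c i i = c i (i + 1) := by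
    intro i hi
    have := v1 i (by omega)
    rwa [Y2_lt (by omega)] at this
  have D2 : ∀ i, i ≤ b - 1 → c (i + 1) i = c (i + 1) (i + 1) := by
    intro i hi
    have := v2 i (by omega)
    rwa [Y2_lt (by omega)] at this
  have two : ∀ j, 1 ≤ j → j ≤ b - 3 → c 0 (j + 2) = c 0 j := by
    intro j hj1 hj
    rw [← F1 j hj1 (by omega), L2 j hj1 b (by omega) le_rfl, D2 j (by omega),
      D1 (j + 1) (by omega), L1 (j + 2) (by omega) (j + 1) (by omega)]
  have odds : ∀ s, 2 * s + 1 < b → c 0 (2 * s + 1) = c 0 0 := by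
    intro s
    induction s with
    | zero =>
      intro _
      have := D1 0 (by omega)
      rw [zero_add] at this
      exact this.symm
    | succ s ih =>
      intro hs
      rw [show 2 * (s + 1) + 1 = 2 * s + 1 + 2 by omega, two (2 * s + 1) (by omega) (by omega)]
      exact ih (by omega)
  have evs : ∀ s, 2 * s + 2 < b → c 0 (2 * s + 2) = c 0 2 := by
    intro s
    induction s with
    | zero => intro _; rfl
    | succ s ih =>
      intro hs
      rw [show 2 * (s + 1) + 2 = 2 * s + 2 + 2 by omega, two (2 * s + 2) (by omega) (by omega)]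
      exact ih (by omega)
  have e2 : c 0 2 = c 0 0 := by
    have h := evs ((b - 3) / 2) (by omega)
    rw [show 2 * ((b - 3) / 2) + 2 = b - 1 by omega] at h
    rw [← h, F2]
  have all0 : ∀ j < b, c 0 j = c 0 0 := by
    intro j hj
    rcases Nat.mod_two_eq_zero_or_one j with h | h
    · rcases Nat.eq_zero_or_pos j with h0 | h0
      · rw [h0]
      · have := evs ((j - 2) / 2) (by omega)
        rw [show 2 * ((j - 2) / 2) + 2 = j by omega] at this
        rw [this, e2]
    · have := odds (j / 2) (by omega)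
      rwa [show 2 * (j / 2) + 1 = j by omega] at this
  have row0 : c 1 0 = c 0 0 := by
    have h1 := D2 0 (by omega)
    have h2 := D1 1 (by omega)
    rw [zero_add] at h1
    rw [h1, h2, L1 2 (by omega) 1 (by omega), e2]
  have red : ∀ i < b + 2 * k + 1, ∀ j < b, c i j = c 0 0 := by
    intro i hi j hj
    rcases lt_or_ge i b with h1 | h1
    · rcases lt_trichotomy i j with h2 | h2 | h2
      · rw [L1 j hj i (by omega), all0 j hj]
      · subst h2
        rw [D1 i (by omega)]
        rcases lt_or_ge (i + 1) b with h3 | h3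
        · rw [L1 (i + 1) h3 i le_rfl, all0 _ h3]
        · rw [show i + 1 = b by omega, per2, L0 i (by omega) (by omega), row0]
      · rcases Nat.eq_zero_or_pos j with h0 | h0
        · rw [h0, L0 i (by omega) (by omega), row0]
        · rw [L2 j h0 i (by omega) (by omega), ← L2 j h0 b (by omega) le_rfl,
            F1 j h0 (by omega), all0 j hj]
    · rcases lt_or_ge i (b + 2 * k) with h3 | h3
      · by_cases h2 : 2 ≤ j ∧ j ≤ b - 2
        · rw [A j h2.1 h2.2 i h1 (by omega), F1 j (by omega) h2.2, all0 j hj]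
        · have hj3 : j = 0 ∨ j = 1 ∨ j = b - 1 := by omega
          have hc1 : c b 1 = c 0 0 := by rw [F1 1 le_rfl (by omega), all0 1 (by omega)]
          rcases Nat.mod_two_eq_zero_or_one (i - b) with h4 | h4
          · obtain ⟨t, ht⟩ : ∃ t, i = b + 2 * t := ⟨(i - b) / 2, by omega⟩
            have hB := B t (by omega)
            rw [hc1] at hB
            have hs := step t (by omega) _ hB
            rw [ht]
            rcases hj3 with h5 | h5 | h5 <;> rw [h5]
            · exact hs.1
            · exact hB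
            · exact hs.2.1
          · obtain ⟨t, ht⟩ : ∃ t, i = b + 2 * t + 1 := ⟨(i - b) / 2, by omega⟩
            have hB := B t (by omega)
            rw [hc1] at hB
            have hs := step t (by omega) _ hB
            rw [ht]
            rcases hj3 with h5 | h5 | h5 <;> rw [h5]
            · exact hs.2.2.2.1
            · exact hs.2.2.1
            · exact hs.2.2.2.2.1
      · have : i = b + 2 * k := by omega
        rw [this, tail j hj, all0 j hj]
  exact red

end Pool.Agent.Y423.LA
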