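import Pool.Agent.Y423.LA.Cls

set_option autoImplicit false

/-!
Linear arboricity of balanced Cartesian products.
-/

namespace Pool.Agent.Y423.LA

open SimpleGraph Pool.Agent.W111.LAR Finset H931R3.LA

/-- All degrees even. -/
theorem long_even {ι : Type} [Fintype ι] {V : ι → Type} [∀ i, Finite (V i)]
    (G : ∀ i, SimpleGraph (V i)) (r : ι → ℕ) (R g j : ℕ)
    (hdeg : ∀ i v, ((G i).neighborSet v).ncard = r i) (hev : ∀ i, Even (r i))
    (hR : ∀ i, r i ≤ R) (hg1 : 1 ≤ g)
    (hg : ∀ i (v : V i) (c : (G i).Walk v v), c.IsCycle → g ≤ c.length)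
    (h : 2 ^ j * R ≤ ∑ i, r i) : Long (piG G) ((∑ i, r i) / 2) (g ^ 2 ^ j) := by
  have h1 : ∀ i, r i = 2 * (r i / 2) := fun i => by
    obtain ⟨m, hm⟩ := hev i
    omega
  have h2 : ∑ i, r i = 2 * ∑ i, r i / 2 := by
    rw [mul_sum]
    exact sum_congr rfl fun i _ => h1 i
  have h3 := long_balanced G (fun i => r i / 2) (fun i v => (hdeg i v).trans (h1 i)) g hg1 hg
    (R / 2) j (fun i => Nat.div_le_div_right (hR i)) (by
      have h4 : 2 ^ j * (R / 2) * 2 ≤ 2 ^ j * R := by
        rw [mul_assoc]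
        exact Nat.mul_le_mul_left _ (Nat.div_mul_le_self R 2)
      omega)
  have h5 : (∑ i, r i) / 2 = ∑ i, r i / 2 := by omega
  rw [h5]
  exact h3

/-- The product over the fibres of a map of the index set. -/
theorem piG_fiber {ι κ : Type} {V : ι → Type} (G : ∀ i, SimpleGraph (V i)) (π : ι → κ) :
    piG G = (piG (fun b : κ => piG (fun i : {i // π i = b} => G i.1))).comap
      (⟨fun x _ i => x i.1, fun y i => y (π i) ⟨i, rfl⟩, fun _ => rfl, fun y => by
        funext b i
        obtain ⟨i, rfl⟩ := i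
        rfl⟩ : (∀ i, V i) ≃ (∀ b, ∀ i : {i // π i = b}, V i.1)) := by
  ext x y
  rw [comap_adj, piG_adj, piG_adj]
  simp only [Equiv.coe_fn_mk, piG_adj]
  constructor
  · rintro ⟨i, h1, h2⟩
    refine ⟨π i, ⟨⟨i, rfl⟩, h1, fun j hj => h2 _ (fun h => hj (Subtype.ext h))⟩, ?_⟩
    intro b hb
    funext j
    refine h2 _ (fun h => hb ?_)
    rw [← j.2, h]
  · rintro ⟨b, ⟨i, h1, h2⟩, h3⟩
    refine ⟨i.1, h1, fun j hj => ?_⟩
    by_cases hp : π j = b
    · exact h2 ⟨j, hp⟩ (fun h => hj (congrArg Subtype.val h))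
    · exact congrFun (h3 (π j) hp) ⟨j, rfl⟩

open Classical in
theorem pairing {ι : Type} (r : ι → ℕ) (R : ℕ) (hR : ∀ i, r i ≤ R) :
    ∀ (n : ℕ) (s : Finset ι), s.card = n → Even (∑ i ∈ s, r i) →
      ∃ π : ι → ι, (∀ i ∈ s, π i ∈ s) ∧
        ∀ b, Even (∑ i ∈ s.filter (fun i => π i = b), r i) ∧
          ∑ i ∈ s.filter (fun i => π i = b), r i ≤ 2 * R := by
  intro n
  induction n using Nat.strong_induction_on with
  | _ n ih =>
    intro s hs hev
    rcases s.eq_empty_or_nonempty with h0 | h0
    · subst h0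
      exact ⟨id, fun i hi => absurd hi (notMem_empty i), fun b => by simp⟩
    · -- a block
      obtain ⟨B, hB, a, ha, hBe, hBR⟩ : ∃ B ⊆ s, ∃ a ∈ B, Even (∑ i ∈ B, r i) ∧
          ∑ i ∈ B, r i ≤ 2 * R := by
        by_cases hE : ∃ a ∈ s, Even (r a)
        · obtain ⟨a, ha, hra⟩ := hE
          refine ⟨{a}, by simpa using ha, a, by simp, by simpa using hra, ?_⟩
          have := hR a
          rw [sum_singleton]; omega
        · push Not at hE
          obtain ⟨a, ha⟩ := h0
          have h1 : ∃ b ∈ s, b ≠ a := by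
            by_contra hcon
            push Not at hcon
            have h2 : s = {a} := by
              ext i
              rw [mem_singleton]
              exact ⟨fun h => hcon i h, fun h => h ▸ ha⟩
            rw [h2, sum_singleton] at hev
            exact hE a ha hev
          obtain ⟨b, hb, hba⟩ := h1
          refine ⟨{a, b}, ?_, a, by simp, ?_, ?_⟩
          · intro i hi
            rw [mem_insert, mem_singleton] at hi
            rcases hi with rfl | rfl
            · exact ha
            · exact hb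
          · rw [sum_pair hba.symm]
            exact (Nat.not_even_iff_odd.1 (hE a ha)).add_odd (Nat.not_even_iff_odd.1 (hE b hb))
          · rw [sum_pair hba.symm]
            have h3 := hR a
            have h4 := hR b
            omega
      have hcard : (s \ B).card < n := by
        rw [card_sdiff_of_subset hB, hs]
        have h5 : 0 < B.card := card_pos.2 ⟨a, ha⟩
        have h6 := card_le_card hB
        omega
      have hsum : ∑ i ∈ s \ B, r i + ∑ i ∈ B, r i = ∑ i ∈ s, r i := sum_sdiff hB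
      have hev' : Even (∑ i ∈ s \ B, r i) := by
        rw [← hsum] at hev
        exact (Nat.even_add.1 hev).2 hBe
      obtain ⟨π', p1, p2⟩ := ih _ hcard (s \ B) rfl hev'
      refine ⟨fun i => if i ∈ B then a else π' i, ?_, ?_⟩
      · intro i hi
        show (if i ∈ B then a else π' i) ∈ s
        by_cases h : i ∈ B
        · rw [if_pos h]; exact hB ha
        · rw [if_neg h]
          exact (mem_sdiff.1 (p1 i (mem_sdiff.2 ⟨hi, h⟩))).1
      · intro b
        by_cases hb : b = a
        · have e : s.filter (fun i => (if i ∈ B then a else π' i) = b) = B := by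
            ext i
            rw [mem_filter, hb]
            constructor
            · rintro ⟨hi, h⟩
              by_contra hn
              rw [if_neg hn] at h
              have := (mem_sdiff.1 (p1 i (mem_sdiff.2 ⟨hi, hn⟩))).2
              rw [h] at this
              exact this ha
            · intro h
              exact ⟨hB h, if_pos h⟩
          rw [e]
          exact ⟨hBe, hBR⟩
        · have e : s.filter (fun i => (if i ∈ B then a else π' i) = b) =
              (s \ B).filter (fun i => π' i = b) := by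
            ext i
            rw [mem_filter, mem_filter, mem_sdiff]
            constructor
            · rintro ⟨hi, h⟩
              by_cases hn : i ∈ B
              · rw [if_pos hn] at h
                exact absurd h.symm hb
              · rw [if_neg hn] at h
                exact ⟨⟨hi, hn⟩, h⟩
            · rintro ⟨⟨hi, hn⟩, h⟩
              rw [if_neg hn]
              exact ⟨hi, h⟩
          rw [e]
          exact p2 b

/-- Any degrees, even sum. -/
theorem long_any {ι : Type} [Fintype ι] {V : ι → Type} [∀ i, Finite (V i)]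
    (G : ∀ i, SimpleGraph (V i)) (r : ι → ℕ) (R j : ℕ)
    (hdeg : ∀ i v, ((G i).neighborSet v).ncard = r i) (hev : Even (∑ i, r i))
    (hR : ∀ i, r i ≤ R) (h : 2 ^ j * (2 * R) ≤ ∑ i, r i) :
    Long (piG G) ((∑ i, r i) / 2) (3 ^ 2 ^ j) := by
  classical
  obtain ⟨π, -, hπ⟩ := pairing r R hR _ (univ : Finset ι) rfl hev
  have hfib : ∀ b, ∑ i : {i // π i = b}, r i.1 = ∑ i ∈ univ.filter (fun i => π i = b), r i := by
    intro b
    exact (Finset.sum_subtype (univ.filter (fun i => π i = b)) (fun i => by simp) r).symm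
  have hsum : ∑ b, ∑ i : {i // π i = b}, r i.1 = ∑ i, r i := by
    rw [← sum_fiberwise univ π r]
    exact sum_congr rfl fun b _ => hfib b
  have key := long_even (fun b : ι => piG (fun i : {i // π i = b} => G i.1))
    (fun b => ∑ i : {i // π i = b}, r i.1) (2 * R) 3 j (fun b x => by
      rw [piG_deg]
      exact sum_congr rfl fun i _ => hdeg _ _) (fun b => by rw [hfib]; exact (hπ b).1)
    (fun b => by rw [hfib]; exact (hπ b).2) (by norm_num)
    (fun b v c hc => hc.three_le_length) (by rw [hsum]; exact h)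
  rw [hsum] at key
  rw [piG_fiber G π]
  exact key.comap _

theorem la_of_long {V : Type} [Finite V] [Nonempty V] {G : SimpleGraph V} {D L : ℕ}
    (hD : 0 < D) (he : Even D) (hreg : ∀ v, (G.neighborSet v).ncard = D)
    (h : Long G (D / 2) L) (hL : D ≤ L) : la G = (D + 2) / 2 := by
  refine la_eq_of_cov hD hreg ?_
  obtain ⟨m, hm⟩ := he
  have h1 := cov_of_long h (by omega)
  have h2 : (D + 2) / 2 = D / 2 + 1 := by omega
  rw [h2]
  exact h1

/-- The odd case. -/
theorem odd_case {ι : Type} [Fintype ι] {V : ι → Type} [∀ i, Finite (V i)] [∀ i, Nonempty (V i)]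
    (G : ∀ i, SimpleGraph (V i)) (r : ι → ℕ) (R j : ℕ)
    (hdeg : ∀ i v, ((G i).neighborSet v).ncard = r i) (hodd : Odd (∑ i, r i))
    (hR : ∀ i, r i ≤ R) (i₀ : ι) (M : (G i₀).Subgraph) (hM : M.IsPerfectMatching)
    (h : 2 ^ j * (2 * R) ≤ ∑ i, r i - 1) (h2 : 6 * (∑ i, r i - 1) ≤ 3 ^ 2 ^ j + 8) :
    la (piG G) = (∑ i, r i + 2) / 2 := by
  classical
  have hm := ncard_sdiff_matching hM
  let G' : ∀ i, SimpleGraph (V i) := Function.update G i₀ (G i₀ \ M.spanningCoe)
  let r' : ι → ℕ := Function.update r i₀ (r i₀ - 1)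
  have hr0 : 1 ≤ r i₀ := by
    obtain ⟨v⟩ := (inferInstance : Nonempty (V i₀))
    have h3 := (hm v).2
    rw [hdeg i₀ v] at h3
    omega
  have hG' : ∀ i, i ≠ i₀ → G' i = G i := fun i hi => Function.update_of_ne hi _ _
  have hG0 : G' i₀ = G i₀ \ M.spanningCoe := Function.update_self _ _ _
  have hr' : ∀ i, i ≠ i₀ → r' i = r i := fun i hi => Function.update_of_ne hi _ _
  have hr0' : r' i₀ = r i₀ - 1 := Function.update_self _ _ _
  have hdeg' : ∀ i v, ((G' i).neighborSet v).ncard = r' i := by
    intro i v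
    by_cases hi : i = i₀
    · subst hi
      rw [hG0, hr0']
      have h3 := (hm v).2
      rw [hdeg i v] at h3
      omega
    · rw [hG' i hi, hr' i hi]
      exact hdeg i v
  have hs : ∑ i, r' i + 1 = ∑ i, r i := by
    rw [← add_sum_erase univ r' (mem_univ i₀), ← add_sum_erase univ r (mem_univ i₀), hr0']
    have : ∑ i ∈ univ.erase i₀, r' i = ∑ i ∈ univ.erase i₀, r i :=
      sum_congr rfl fun i hi => hr' i (ne_of_mem_erase hi)
    rw [this]
    omega
  have hev' : Even (∑ i, r' i) := by
    obtain ⟨m, hm⟩ := hodd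
    exact ⟨m, by omega⟩
  have hR' : ∀ i, r' i ≤ R := by
    intro i
    by_cases hi : i = i₀
    · subst hi
      rw [hr0']
      have := hR i
      omega
    · rw [hr' i hi]
      exact hR i
  have key := long_any G' r' R j hdeg' hev' hR' (by
    have : ∑ i, r' i = ∑ i, r i - 1 := by omega
    rw [this]; exact h)
  obtain ⟨κ, iκ, H, k1, k2, k3, k4⟩ := key
  let Q : ∀ i, SimpleGraph (V i) := Function.update (fun _ => ⊥) i₀ M.spanningCoe
  have hQ' : ∀ i, i ≠ i₀ → Q i = ⊥ := fun i hi => Function.update_of_ne hi _ _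
  have hQ0 : Q i₀ = M.spanningCoe := Function.update_self _ _ _
  have hQd : ∀ x, ((piG Q).neighborSet x).ncard ≤ 1 := by
    intro x
    rw [piG_deg, ← add_sum_erase univ _ (mem_univ i₀), hQ0, (hm _).1]
    have : ∑ i ∈ univ.erase i₀, ((Q i).neighborSet (x i)).ncard = 0 := by
      refine sum_eq_zero fun i hi => ?_
      rw [hQ' i (ne_of_mem_erase hi)]
      simp
    rw [this]
  have hc := cov_matching H (piG Q) (fun i v => (k2 i v).le) hQd (3 ^ 2 ^ j) (by
    rw [k1]
    omega) (fun i v _ => k3 i v)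
  have hsup : piG Q ⊔ ⨆ i, H i = piG G := by
    rw [k4]
    ext x y
    rw [sup_adj, piG_adj, piG_adj, piG_adj]
    constructor
    · rintro (⟨i, h3, h4⟩ | ⟨i, h3, h4⟩)
      · by_cases hi : i = i₀
        · subst hi
          rw [hQ0] at h3
          exact ⟨i, M.adj_sub h3, h4⟩
        · rw [hQ' i hi] at h3
          exact h3.elim
      · by_cases hi : i = i₀
        · subst hi
          rw [hG0] at h3
          exact ⟨i, h3.1, h4⟩
        · rw [hG' i hi] at h3
          exact ⟨i, h3, h4⟩
    · rintro ⟨i, h3, h4⟩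
      by_cases hi : i = i₀
      · subst hi
        by_cases hMa : M.Adj (x i) (y i)
        · refine Or.inl ⟨i, ?_, h4⟩
          rw [hQ0]
          exact hMa
        · refine Or.inr ⟨i, ?_, h4⟩
          rw [hG0]
          exact ⟨h3, hMa⟩
      · refine Or.inr ⟨i, ?_, h4⟩
        rw [hG' i hi]
        exact h3
  rw [hsup, k1] at hc
  refine la_eq_of_cov (by omega) (fun x => by
    rw [piG_deg]
    exact sum_congr rfl fun i _ => hdeg _ _) ?_
  have h5 : (∑ i, r i + 2) / 2 = (∑ i, r' i) / 2 + 1 := by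
    obtain ⟨m, hm'⟩ := hev'
    omega
  rw [h5]
  exact hc

/-- The choice of the exponent. -/
theorem exists_exp (c R D : ℕ) (hc : 1 ≤ c) (hR : 1 ≤ R)
    (h : 4 * (R : ℝ) * Real.log (2 * c * R) ≤ D) : ∃ j : ℕ, 2 ^ j * R ≤ D ∧ c * D ≤ 3 ^ 2 ^ j := by
  have hR1 : (1 : ℝ) ≤ R := by exact_mod_cast hR
  have hc1 : (1 : ℝ) ≤ c := by exact_mod_cast hc
  have hcR : (1 : ℝ) ≤ c * R := by nlinarith
  have hlog : Real.log 2 ≤ Real.log (2 * c * R) := by
    apply Real.log_le_log (by norm_num)
    rw [mul_assoc]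
    linarith
  have hl2 := Real.log_two_gt_d9
  have hRD : R ≤ D := by
    have h1 : (R : ℝ) ≤ D := by nlinarith
    exact_mod_cast h1
  have hq : D / R ≠ 0 := by
    have := Nat.div_pos hRD hR
    omega
  set j := Nat.log 2 (D / R) with hj
  have h1 : 2 ^ j ≤ D / R := Nat.pow_log_le_self 2 hq
  have h2 : D / R < 2 ^ (j + 1) := Nat.lt_pow_succ_log_self (by norm_num) _
  have h3 : 2 ^ j * R ≤ D := (Nat.le_div_iff_mul_le hR).1 h1
  have h4 : D < 2 ^ (j + 1) * R := (Nat.div_lt_iff_lt_mul hR).1 h2
  refine ⟨j, h3, ?_⟩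
  set m : ℕ := 2 ^ j with hm
  have h4' : (D : ℝ) < 2 * m * R := by
    have : D < 2 * m * R := by rw [hm, ← pow_succ']; exact h4
    exact_mod_cast this
  have h5 : Real.log (2 * c * R) < m / 2 := by
    have h6 : 4 * (R : ℝ) * Real.log (2 * c * R) < 2 * m * R := lt_of_le_of_lt h h4'
    have hRp : (0 : ℝ) < R := by linarith
    nlinarith
  have h7 : 2 * (c : ℝ) * R < Real.exp (m / 2) := by
    rw [← Real.log_lt_iff_lt_exp (by nlinarith)]
    exact h5
  have h8 : (m : ℝ) ≤ Real.exp (m / 2) := by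
    have e1 := Real.add_one_le_exp ((m : ℝ) / 4)
    have e2 : Real.exp ((m : ℝ) / 2) = Real.exp (m / 4) * Real.exp (m / 4) := by
      rw [← Real.exp_add]; congr 1; ring
    have hm0 : (0 : ℝ) ≤ m := Nat.cast_nonneg m
    rw [e2]
    nlinarith [sq_nonneg ((m : ℝ) / 4 - 1)]
  have h9 : (c : ℝ) * D ≤ 3 ^ m := by
    have hm0 : (0 : ℝ) ≤ m := Nat.cast_nonneg m
    have e1 : (c : ℝ) * D ≤ m * Real.exp (m / 2) := by
      have : (c : ℝ) * D ≤ m * (2 * c * R) := by nlinarith
      exact this.trans (mul_le_mul_of_nonneg_left h7.le hm0)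
    have e2 : (m : ℝ) * Real.exp (m / 2) ≤ Real.exp m := by
      have : Real.exp (m : ℝ) = Real.exp (m / 2) * Real.exp (m / 2) := by
        rw [← Real.exp_add]; congr 1; ring
      rw [this]
      exact mul_le_mul_of_nonneg_right h8 (Real.exp_pos _).le
    have e3 : Real.exp (m : ℝ) ≤ 3 ^ m := by
      have h10 : Real.exp (m : ℝ) = Real.exp 1 ^ m := by
        rw [← Real.exp_nat_mul, mul_one]
      rw [h10]
      have h11 := Real.exp_one_lt_d9
      exact pow_le_pow_left₀ (Real.exp_pos _).le (by linarith) m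
    exact e1.trans (e2.trans e3)
  exact_mod_cast h9

end Pool.Agent.Y423.LA
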